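import Mathlib
import Pool.Agent.H73.W.JCut
import Pool.Agent.H71.W.J6A

set_option autoImplicit false
open Finset

/-! # XP, geometry of the push of the upper half of the junction box

Tiles of the box above the slit (`InQ_up`, `InQ_dn`), tiles next to the box (`nb_up`), the tile below a tile of
the thin region is a tile of the thick region (`dn_mem_Lam`), colours of the outer layer one row lower
(`u_step`) and in the two worlds (`lcol_hi`, `lcol_lo`). -/

namespace Pool.Agent.H7.W

open Pool.Agent.H61.W Pool.Agent.H6.W Pool.Agent.H58.W Pool.Agent.H21.W Pool.Agent.H71.W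
open Pool.Agent.H73.W (LamT)
open Pool.Agent.H19.W (cx cy lt_cc cx_lt cy_lt)
open Pool.Agent.H33.Q1 (lt lt_odd lt_inj)

variable {b : JBox} {δ σ : ℝ} {n : ℤ}

/-- the box above the slit -/
lemma InQ_up (hb : b.Ok δ σ) (hn : 0 < n) {x y : ℤ} (hy : 0 ≤ y) : InQ b n x y ↔
    x < b.X * n ∧ ((y < b.H * n ∧ -(b.X * n : ℤ) ≤ x) ∨
      ∃ i < b.K, ((b.H : ℤ) + i) * n ≤ y ∧ y < ((b.H : ℤ) + i) * n + n ∧ b.st i * n ≤ x) := by
  have h0 : 0 ≤ y / n := Int.ediv_nonneg hy hn.le
  have e1 : ∀ a : ℤ, a ≤ y / n ↔ a * n ≤ y := fun a => le_div_iff' hn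
  have e2 : ∀ a : ℤ, y / n < a ↔ y < a * n := fun a => div_lt_iff' hn
  have hd : dst (y / n) = y / n := by unfold dst; rw [if_pos h0]
  unfold InQ
  rw [mem_Q hb, hd]
  unfold Ht
  constructor
  · rintro ⟨h1, h2, h3⟩
    rw [div_lt_iff' hn] at h2
    refine ⟨h2, ?_⟩
    split_ifs at h3 with h4
    · left
      rw [le_div_iff' hn] at h3
      exact ⟨(e2 _).1 h4, by linarith⟩
    · right
      refine ⟨(y / n - b.H).toNat, by omega, ?_, ?_, ?_⟩
      · rw [← e1]; omega
      · have := (e2 ((b.H : ℤ) + ((y / n - b.H).toNat : ℤ) + 1)).1 (by omega)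
        linarith
      · rw [le_div_iff' hn] at h3; exact h3
  · rintro ⟨h1, ⟨h2, h3⟩ | ⟨i, hi, h2, h3, h4⟩⟩
    · have h5 := (e2 _).2 h2
      rw [if_pos h5]
      exact ⟨by omega, (div_lt_iff' hn).2 h1, (le_div_iff' hn).2 (by linarith)⟩
    · have h5 := (e1 _).2 h2
      have h6 := (e2 ((b.H : ℤ) + i + 1)).2 (by linarith)
      have h7 : (y / n - b.H).toNat = i := by omega
      rw [if_neg (by omega), h7]
      exact ⟨by omega, (div_lt_iff' hn).2 h1, (le_div_iff' hn).2 h4⟩

/-- the ceiling goes up to the right -/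
lemma InQ_dn (hb : b.Ok δ σ) (hn : 0 < n) {x y : ℤ} (hy : 1 ≤ y) (h : InQ b n x y) :
    InQ b n x (y - 1) := by
  rw [InQ_up hb hn (by omega)] at h
  rw [InQ_up hb hn (by omega)]
  obtain ⟨h1, ⟨h2, h3⟩ | ⟨i, hi, h2, h3, h4⟩⟩ := h
  · exact ⟨h1, Or.inl ⟨by omega, h3⟩⟩
  · refine ⟨h1, ?_⟩
    have hlo := (hb.st_lo i hi).1
    rcases lt_or_ge y (((b.H : ℤ) + i) * n + 1) with h5 | h5
    · rcases Nat.eq_zero_or_pos i with h0 | h0
      · subst h0
        left
        refine ⟨?_, by nlinarith⟩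
        push_cast at h5
        linarith
      · obtain ⟨k, rfl⟩ : ∃ k, i = k + 1 := ⟨i - 1, by omega⟩
        right
        have e : ((b.H : ℤ) + ((k + 1 : ℕ) : ℤ)) * n = ((b.H : ℤ) + k) * n + n := by
          push_cast; ring
        rw [e] at h2 h3 h5
        refine ⟨k, by omega, by omega, by omega, ?_⟩
        have := hb.st_mono k hi
        nlinarith
    · right
      exact ⟨i, hi, by omega, by omega, h4⟩

/-- tiles next to the box, above the slit -/
lemma nb_up (hb : b.Ok δ σ) (hn : 0 < n) {x y : ℤ} (hy : 1 ≤ y)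
    (h : ∃ i j : ℤ, |i| ≤ 1 ∧ |j| ≤ 1 ∧ InQ b n (x + i) (y + j)) :
    ∃ i : ℤ, |i| ≤ 1 ∧ InQ b n (x + i) (y - 1) := by
  obtain ⟨i, j, hi, hj, h⟩ := h
  rw [abs_le] at hj
  refine ⟨i, hi, ?_⟩
  have : j = -1 ∨ j = 0 ∨ j = 1 := by omega
  rcases this with rfl | rfl | rfl
  · exact h
  · rw [add_zero] at h; exact InQ_dn hb hn hy h
  · have h1 := InQ_dn hb hn (by omega) h
    rw [add_sub_cancel_right] at h1
    exact InQ_dn hb hn hy h1

lemma dgt_t (i : ℕ) : dgt b n (true, i) = (b.st i * n - 1, ((b.H : ℤ) + i + 1) * n) := rfl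

lemma dgt_f (i : ℕ) : dgt b n (false, i) = (b.st i * n - 1, -(((b.H : ℤ) + i + 1) * n) - 1) := rfl

lemma mem_LamT {M : Finset (Bool × ℕ)} {x y : ℤ} : lt (x, y) ∈ LamT b n M ↔
    (∃ i j : ℤ, |i| ≤ 1 ∧ |j| ≤ 1 ∧ InQ b n (x + i) (y + j)) ∧ ∀ c ∈ M, (x, y) ≠ dgt b n c := by
  constructor
  · rintro ⟨x', y', he, h⟩
    have := lt_inj he
    rw [Prod.mk.injEq] at this
    obtain ⟨rfl, rfl⟩ := this
    exact h
  · exact fun h => ⟨x, y, rfl, h⟩

lemma mem_Lam' {M : Finset (Bool × ℕ)} {x y : ℤ} : lt (x, y) ∈ Lam b n M ↔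
    (InQ b n x y ∨ (Ly b n x y ∧ ∀ c ∈ M, (x, y) ≠ dgt b n c)) := by
  rw [mem_Lam, cx_lt, cy_lt]
  exact ⟨fun h => h.2, fun h => ⟨lt_odd _, h⟩⟩

lemma LamT_odd {M : Finset (Bool × ℕ)} {e : ℤ × ℤ} (h : e ∈ LamT b n M) : (e.1 + e.2) % 2 = 1 := by
  obtain ⟨x, y, rfl, -⟩ := h
  exact lt_odd _

lemma LamT_sub {M : Finset (Bool × ℕ)} {e : ℤ × ℤ} (h : e ∈ LamT b n M) : e ∈ Lam b n M := by
  obtain ⟨x, y, rfl, ⟨i, j, hi, hj, h1⟩, h2⟩ := h
  rw [mem_Lam']
  by_cases h3 : InQ b n x y
  · exact Or.inl h3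
  · exact Or.inr ⟨⟨h3, i, j, by linarith, by linarith, h1⟩, h2⟩

/-- the thin region in the inner band -/
lemma LamT_band (hb : b.Ok δ σ) (hn : 0 < n) {M : Finset (Bool × ℕ)} {x y : ℤ}
    (h1 : -(b.H * n : ℤ) ≤ y) (h2 : y < b.H * n) :
    lt (x, y) ∈ LamT b n M ↔ -(b.X * n : ℤ) - 1 ≤ x ∧ x ≤ b.X * n := by
  have hX : (0 : ℤ) < b.X * n := mul_pos (by exact_mod_cast X_pos hb) hn
  rw [mem_LamT]
  constructor
  · rintro ⟨⟨i, j, hi, hj, h⟩, -⟩
    have := InQ_col hb hn h
    rw [abs_le] at hi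
    omega
  · rintro ⟨g1, g2⟩
    refine ⟨?_, ?_⟩
    · rcases lt_or_ge x (-(b.X * n : ℤ)) with g3 | g3
      · refine ⟨1, 0, by norm_num, by norm_num, ?_⟩
        rw [add_zero, InQ_band hb hn h1 h2]
        omega
      · rcases lt_or_ge x (b.X * n : ℤ) with g4 | g4
        · refine ⟨0, 0, by norm_num, by norm_num, ?_⟩
          rw [add_zero, add_zero, InQ_band hb hn h1 h2]
          omega
        · refine ⟨-1, 0, by norm_num, by norm_num, ?_⟩
          rw [add_zero, InQ_band hb hn h1 h2]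
          omega
    · intro c _ hc
      have := congrArg Prod.snd hc
      simp only at this
      rcases dgt_row (b := b) hn c with h | h
      · rw [← this] at h; linarith
      · rw [← this] at h; linarith

/-- **the tile below a tile of the thin region** -/
lemma dn_mem_Lam (hb : b.Ok δ σ) (hn : 0 < n) {M : Finset (Bool × ℕ)} {x y : ℤ} (hy : 1 ≤ y) (h : lt (x, y) ∈ LamT b n M) : lt (x, y - 1) ∈ Lam b n M := by
  rw [mem_LamT] at h
  obtain ⟨i, hi, h3⟩ := nb_up hb hn hy h.1
  rw [mem_Lam']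
  by_cases h4 : InQ b n x (y - 1)
  · exact Or.inl h4
  refine Or.inr ⟨⟨h4, i, 0, by linarith, by norm_num, by rw [add_zero]; exact h3⟩, ?_⟩
  rintro ⟨s, k⟩ hc he
  rw [abs_le] at hi
  cases s
  · rw [dgt_f, Prod.mk.injEq] at he
    have h5 : (0 : ℤ) < ((b.H : ℤ) + k + 1) * n := by positivity
    omega
  · rw [dgt_t, Prod.mk.injEq] at he
    have h5 : ((b.H : ℤ) + k + 1) * n = ((b.H : ℤ) + k) * n + n := by ring
    rw [h5] at he
    have h6 : (0 : ℤ) ≤ k * n := by positivity
    have h7 : ((b.H : ℤ) + k) * n = b.H * n + k * n := by ring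
    rw [InQ_up hb hn (by omega)] at h3
    obtain ⟨g1, ⟨g2, g3⟩ | ⟨k', hk', g2, g3, g4⟩⟩ := h3
    · omega
    · have hkk : k < k' := by
        by_contra hc'
        have h8 : ((b.H : ℤ) + k') * n ≤ ((b.H : ℤ) + k) * n := by
          have : (k' : ℤ) ≤ k := by exact_mod_cast not_lt.1 hc'
          nlinarith
        omega
      have h9 := st_mono' hb k k' hkk hk'
      have h10 : b.st k * n + n ≤ b.st k' * n := by nlinarith
      omega

/-- **colours of the ceiling one row lower** -/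
lemma u_step (hb : b.Ok δ σ) (hn : 0 < n) {M : Finset (Bool × ℕ)} {x y : ℤ} (hy : 1 ≤ y)
    (hx : x < b.X * n) (hT : lt (x, y) ∈ LamT b n M) (h0 : ¬ InQ b n x (y - 1)) (base : Bool)
    (ex : Option ℤ) : (colM base M ex).u (min b.K (y / n - b.H).toNat) =
      (colM base M ex).u (min b.K ((y - 1) / n - b.H).toNat) := by
  rw [mem_LamT] at hT
  obtain ⟨hT1, hT2⟩ := hT
  by_cases hd : y / n = (y - 1) / n
  · rw [hd]
  have e1 := Int.emod_add_mul_ediv y n
  have e2 := Int.emod_nonneg y hn.ne'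
  have e3 := Int.emod_lt_of_pos y hn
  -- the row starts at `y`
  have hy1 : y = y / n * n := by
    by_contra hne
    apply hd
    have h1 : y / n * n ≤ y - 1 := by
      have := Int.ediv_mul_le y hn.ne'
      omega
    have h2 : y / n ≤ (y - 1) / n := (le_div_iff' hn).2 h1
    have h3 : (y - 1) / n ≤ y / n := Int.ediv_le_ediv hn (by omega)
    omega
  have hy2 : (y - 1) / n = y / n - 1 := by
    have h3 : (y - 1) / n ≤ y / n := Int.ediv_le_ediv hn (by omega)
    have h4 : y / n - 1 ≤ (y - 1) / n := by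
      rw [le_div_iff' hn]
      have : (y / n - 1) * n = y / n * n - n := by ring
      rw [this, ← hy1]
      omega
    omega
  rw [hy2]
  rcases le_or_gt (y / n) b.H with h5 | h5
  · have g1 : (y / n - b.H).toNat = 0 := by omega
    have g2 : (y / n - 1 - b.H).toNat = 0 := by omega
    rw [g1, g2]
  · obtain ⟨i, hi⟩ : ∃ i : ℕ, y / n = b.H + i + 1 := ⟨(y / n - b.H - 1).toNat, by omega⟩
    have g1 : (y / n - b.H).toNat = i + 1 := by omega
    have g2 : (y / n - 1 - b.H).toNat = i := by omega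
    rw [g1, g2]
    rcases Nat.lt_or_ge i b.K with h6 | h6
    · rw [Nat.min_eq_right (by omega), Nat.min_eq_right (by omega)]
      -- the corner `i` is not a mark
      have hnm : (true, i) ∉ M := by
        intro hm
        obtain ⟨k, hk, h7⟩ := nb_up hb hn hy hT1
        rw [abs_le] at hk
        rw [InQ_up hb hn (by omega)] at h7 h0
        have e4 : y = ((b.H : ℤ) + i) * n + n := by rw [hy1, hi]; ring
        obtain ⟨g3, ⟨g4, g5⟩ | ⟨k', hk', g4, g5, g6⟩⟩ := h7
        · have : (0 : ℤ) ≤ i * n := by positivity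
          have h8 : ((b.H : ℤ) + i) * n = b.H * n + i * n := by ring
          omega
        · have hkk : k' = i := by
            rcases Nat.lt_trichotomy k' i with h9 | h9 | h9
            · exfalso
              have : ((b.H : ℤ) + k') * n + n ≤ ((b.H : ℤ) + i) * n := by
                have : (k' : ℤ) + 1 ≤ i := by exact_mod_cast h9
                nlinarith
              omega
            · exact h9
            · exfalso
              have : ((b.H : ℤ) + i) * n + n ≤ ((b.H : ℤ) + k') * n := by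
                have : (i : ℤ) + 1 ≤ k' := by exact_mod_cast h9
                nlinarith
              omega
          subst hkk
          have h10 : ¬ b.st k' * n ≤ x := fun h => h0 ⟨hx, Or.inr ⟨k', hk', g4, g5, h⟩⟩
          refine hT2 _ hm ?_
          rw [dgt_t, Prod.mk.injEq]
          refine ⟨by omega, ?_⟩
          rw [e4]; ring
      unfold colM
      simp only
      congr 3
      apply filter_congr
      rintro ⟨s, k⟩ hc
      simp only
      constructor
      · rintro ⟨h7, h8⟩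
        refine ⟨h7, ?_⟩
        rcases Nat.lt_or_ge k i with h9 | h9
        · exact h9
        · exfalso
          have : k = i := by omega
          subst this
          subst h7
          exact hnm hc
      · rintro ⟨h7, h8⟩
        exact ⟨h7, by omega⟩
    · rw [Nat.min_eq_left (by omega), Nat.min_eq_left (by omega)]

/-! ### Colours of the two worlds -/

lemma colM_u (w : Bool) (M : Finset (Bool × ℕ)) (r : ℤ) (i : ℕ) :
    (colM w M none).u i = !(colM (bs w) M (some r)).u i := by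
  unfold colM bs
  simp only
  cases w <;> cases par _ <;> rfl

lemma colM_l (w : Bool) (M : Finset (Bool × ℕ)) (r : ℤ) (i : ℕ) :
    (colM w M none).l i = (colM (bs w) M (some r)).l i := by
  unfold colM bs
  simp only [Option.isSome]
  cases w <;> cases par (M.filter fun c => c.1 = true).card <;> cases par _ <;> rfl

lemma colM_cr_hi (w : Bool) (M : Finset (Bool × ℕ)) {r y : ℤ} (h : r ≤ y) (y' : ℤ) :
    (colM w M none).cr y' = !(colM (bs w) M (some r)).cr y := by
  unfold colM bs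
  simp only
  rw [decide_eq_false (by omega)]
  cases w <;> cases par _ <;> rfl

lemma colM_cr_lo (w : Bool) (M : Finset (Bool × ℕ)) {r y : ℤ} (h : y < r) (y' : ℤ) :
    (colM w M none).cr y' = (colM (bs w) M (some r)).cr y := by
  unfold colM bs
  simp only
  rw [decide_eq_true h]
  cases w <;> cases par _ <;> rfl

/-- above the string: flipped -/
lemma lcol_hi {w : Bool} {M : Finset (Bool × ℕ)} {r x y : ℤ} (h0 : 0 ≤ y)
    (h : x < b.X * n ∨ r ≤ y) : lcol b n (colM w M none) x y =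
      !lcol b n (colM (bs w) M (some r)) x y := by
  unfold lcol
  by_cases hx : b.X * n ≤ x
  · rw [if_pos hx, if_pos hx]
    exact colM_cr_hi w M (by omega) y
  · rw [if_neg hx, if_neg hx, if_pos h0, if_pos h0]
    exact colM_u w M r _

/-- below the string: equal -/
lemma lcol_lo {w : Bool} {M : Finset (Bool × ℕ)} {r x y : ℤ}
    (h : (x < b.X * n ∧ y < 0) ∨ (b.X * n ≤ x ∧ y < r)) : lcol b n (colM w M none) x y =
      lcol b n (colM (bs w) M (some r)) x y := by
  unfold lcol
  rcases h with ⟨h1, h2⟩ | ⟨h1, h2⟩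
  · rw [if_neg (by omega), if_neg (by omega), if_neg (by omega), if_neg (by omega)]
    exact colM_l w M r _
  · rw [if_pos h1, if_pos h1]
    exact colM_cr_lo w M h2 y

/-- **colour of the layer one row lower, above the string** -/
lemma lcol_dn (hb : b.Ok δ σ) (hn : 0 < n) {w : Bool} {M : Finset (Bool × ℕ)} {r x y : ℤ} (hy : 1 ≤ y)
    (hr : x < b.X * n ∨ r ≤ y) (hT : lt (x, y) ∈ LamT b n M) (h0 : ¬ InQ b n x (y - 1)) :
    lcol b n (colM w M none) x (y - 1) = !lcol b n (colM (bs w) M (some r)) x y := by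
  rw [← lcol_hi (by omega) hr]
  unfold lcol
  by_cases hx : b.X * n ≤ x
  · rw [if_pos hx, if_pos hx]
    rfl
  · rw [if_neg hx, if_neg hx, if_pos (by omega), if_pos (by omega)]
    exact (u_step hb hn hy (by omega) hT h0 w none).symm

end Pool.Agent.H7.W
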