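import Mathlib
import Pool.Agent.H7.W.XGeo
import Pool.Agent.H70.W.WallCor
import Pool.Agent.H80.W.XPGlue

set_option autoImplicit false
open Finset

/-! # XP, the upper room at the upper bank of `P`

`bkh b n x` = height of the upper bank in the column `x < 0`. `Er b n` = labels of the room above `P`, up to
two rows below the lowest ceiling. `bank_prm` : this is a room near the flat wall point `zb n τ x1` (70's `PRm`,
chart `chV 1`). `bank_lay` : the other tiles of the rows `≥ 1` are the upper half of `P` (70's `LayW`), colour `o`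
right of `x1`, `¬ o` left of `x1`. -/

namespace Pool.Agent.H7.W

open Pool.Agent.H61.W Pool.Agent.H6.W Pool.Agent.H58.W Pool.Agent.H21.W Pool.Agent.H71.W
open Pool.Agent.H70.W
open Pool.Agent.H99.NC (BR)
open Pool.Agent.H80.W (Upp mem_Upp)
open Pool.Agent.H19.W (cx cy lt_cc cx_lt cy_lt)
open Pool.Agent.H33.Q1 (lt lt_odd lt_inj tt tt_lt)

variable {b : JBox} {δ σ : ℝ} {n : ℤ}

/-- height of the upper bank over the column `x < 0` -/
def bkh (b : JBox) (n x : ℤ) : ℤ := ((b.τ : ℤ) + pin b n x) * n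

/-- labels of the room above `P` -/
noncomputable def Er (b : JBox) (n : ℤ) : Finset (ℤ × ℤ) :=
  ((Ico (-((b.m : ℤ) * b.M * n)) 0 ×ˢ Ico 0 (b.H * n - 1)).filter fun t => bkh b n t.1 ≤ t.2).image lt

lemma mem_Er {x y : ℤ} : lt (x, y) ∈ Er b n ↔ (-((b.m : ℤ) * b.M * n) ≤ x ∧ x < 0) ∧
    (0 ≤ y ∧ y < b.H * n - 1) ∧ bkh b n x ≤ y := by
  unfold Er
  rw [mem_image]
  simp only [mem_filter, mem_product, mem_Ico]
  constructor
  · rintro ⟨⟨x', y'⟩, h, he⟩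
    have := lt_inj he
    rw [Prod.mk.injEq] at this
    obtain ⟨rfl, rfl⟩ := this
    exact ⟨h.1.1, h.1.2, h.2⟩
  · rintro ⟨h1, h2, h3⟩
    exact ⟨(x, y), ⟨⟨h1, h2⟩, h3⟩, rfl⟩

lemma Er_odd {e : ℤ × ℤ} (h : e ∈ Er b n) : (e.1 + e.2) % 2 = 1 := by
  unfold Er at h
  rw [mem_image] at h
  obtain ⟨t, -, rfl⟩ := h
  exact lt_odd t

/-- the index of the plate decreases to the right -/
lemma pin_anti (hM : 0 < b.M) (hn : 0 < n) {x x' : ℤ} (h : x ≤ x') : pin b n x' ≤ pin b n x := by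
  unfold pin
  have hMn : (0 : ℤ) < b.M * n := mul_pos (by exact_mod_cast hM) hn
  have : (-x' - 1) / (b.M * n) ≤ (-x - 1) / (b.M * n) := Int.ediv_le_ediv hMn (by omega)
  omega

lemma bkh_anti (hM : 0 < b.M) (hn : 0 < n) {x x' : ℤ} (h : x ≤ x') : bkh b n x' ≤ bkh b n x := by
  unfold bkh
  have : (pin b n x' : ℤ) ≤ pin b n x := by exact_mod_cast pin_anti hM hn h
  nlinarith

/-- the plates of `P` -/
lemma pin_lt (hM : 0 < b.M) (hn : 0 < n) {x : ℤ} (h1 : -((b.m : ℤ) * b.M * n) ≤ x) (h2 : x < 0) :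
    pin b n x < b.m := by
  have hMn : (0 : ℤ) < b.M * n := mul_pos (by exact_mod_cast hM) hn
  have h3 := ((pin_eq hM hn h2 (i := pin b n x)).1 rfl).2
  by_contra hc
  have : (b.m : ℤ) ≤ pin b n x := by exact_mod_cast not_lt.1 hc
  have h4 : (b.m : ℤ) * b.M * n ≤ (pin b n x : ℤ) * b.M * n := by
    have e1 : (b.m : ℤ) * b.M * n = b.m * (b.M * n) := by ring
    have e2 : (pin b n x : ℤ) * b.M * n = pin b n x * (b.M * n) := by ring
    rw [e1, e2]
    exact mul_le_mul_of_nonneg_right this hMn.le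
  omega

/-- bounds for the height of the bank over `P` -/
lemma bkh_bd (hM : 0 < b.M) (hn : 0 < n) {x : ℤ} (h1 : -((b.m : ℤ) * b.M * n) ≤ x) (h2 : x < 0) :
    b.τ * n ≤ bkh b n x ∧ bkh b n x ≤ b.τ * n + b.m * n := by
  have h3 := pin_lt hM hn h1 h2
  unfold bkh
  have e1 : ((b.τ : ℤ) + pin b n x) * n = b.τ * n + pin b n x * n := by ring
  rw [e1]
  have h4 : (pin b n x : ℤ) ≤ b.m := by exact_mod_cast h3.le
  have h5 : (0 : ℤ) ≤ pin b n x * n := by positivity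
  constructor
  · omega
  · nlinarith

/-- tiles of the chain over a column -/
lemma chn_col (hM : 0 < b.M) (hn : 0 < n) {x y : ℤ} (hx : x < 0) :
    chn 0 b.M b.τ (x / n, y / n) = some (pin b n x) ↔ -(bkh b n x) ≤ y ∧ y < bkh b n x := by
  rw [chn_tile hM hn]
  exact ⟨fun h => h.2, fun h => ⟨(pin_eq hM hn hx).1 rfl, h⟩⟩

lemma chn_none (hM : 0 < b.M) (hn : 0 < n) {x y : ℤ} (hx : x < 0) :
    chn 0 b.M b.τ (x / n, y / n) = none ↔ ¬ (-(bkh b n x) ≤ y ∧ y < bkh b n x) := by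
  constructor
  · intro h hc
    rw [← chn_col hM hn hx, h] at hc
    exact absurd hc (by simp)
  · intro h
    by_contra hc
    obtain ⟨i, hi⟩ := Option.ne_none_iff_exists'.1 hc
    have h1 := (chn_tile hM hn).1 hi
    have h2 : pin b n x = i := (pin_eq hM hn hx).2 h1.1
    apply h
    unfold bkh
    rw [h2]
    exact h1.2

/-- the labels of `Er` are room labels -/
lemma Er_InR (hb : b.Ok δ σ) (hn : 0 < n) (hP : (b.m : ℤ) * b.M ≤ b.X) {x y : ℤ}
    (h : lt (x, y) ∈ Er b n) : InR b n x y := by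
  rw [mem_Er] at h
  obtain ⟨⟨h1, h2⟩, ⟨h3, h4⟩, h5⟩ := h
  have hX : (0 : ℤ) < b.X * n := mul_pos (by exact_mod_cast X_pos hb) hn
  have hH : (0 : ℤ) ≤ b.H * n := by positivity
  have hPn : (b.m : ℤ) * b.M * n ≤ b.X * n := mul_le_mul_of_nonneg_right hP hn.le
  refine ⟨(InQ_band hb hn (by omega) (by omega)).2 (by omega), ?_⟩
  rw [chn_none hb.M0 hn h2]
  omega

/-- the foot of the mark as a vertex: `(x1, τ n)` in the tile frame -/
def zb (b : JBox) (n x1 : ℤ) : ℤ × ℤ := ((x1 - b.τ * n) / 2, (x1 + b.τ * n) / 2)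

lemma zb_eq {x1 : ℤ} (hx : x1 % 2 = 0) (hn : n % 2 = 0) :
    2 * (zb b n x1).1 = x1 - b.τ * n ∧ 2 * (zb b n x1).2 = x1 + b.τ * n := by
  have h1 : (b.τ * n : ℤ) % 2 = 0 := by
    rw [Int.mul_emod, hn]; simp
  unfold zb
  simp only
  omega

lemma chV1_G (e : ℤ × ℤ) : ((chV 1).G e).1 = e.2 ∧ ((chV 1).G e).2 = e.1 := by
  have := chV_G (s := 1) (Or.inl rfl) e
  rw [one_mul] at this
  exact this

lemma chV1_g (e : ℤ × ℤ) : ((chV 1).g e).1 = e.2 ∧ ((chV 1).g e).2 = e.1 := by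
  have := chV_g (s := 1) (Or.inl rfl) e
  rw [one_mul] at this
  exact this

/-- coordinates in the box around the foot -/
lemma BR_zb {x1 : ℤ} (hx : x1 % 2 = 0) (hn : n % 2 = 0) {x y B : ℤ} : lt (x, y) ∈ BR (zb b n x1) B ↔
    (-(2 * B) ≤ (x - y) - (x1 - b.τ * n) ∧ (x - y) - (x1 - b.τ * n) ≤ 2 * B) ∧
      (-(2 * B) ≤ (x + y + 1) - (x1 + b.τ * n) ∧ (x + y + 1) - (x1 + b.τ * n) ≤ 2 * B) := by
  obtain ⟨h1, h2⟩ := zb_eq (b := b) hx hn
  rw [mem_BR]
  have h3 := lt_odd (x, y)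
  unfold lt at h3 ⊢
  simp only at h3 ⊢
  omega

/-- geometry of the box around the foot: it lies over `P` and below the ceiling -/
structure BG (b : JBox) (n x1 B : ℤ) : Prop where
  ev : x1 % 2 = 0
  L : -((b.m : ℤ) * b.M * n) ≤ x1 - 2 * B
  R : x1 + 2 * B < 0
  T : b.τ * n + 2 * B + 1 < b.H * n

/-- **The room at the bank.** -/
theorem bank_prm (hb : b.Ok δ σ) (hn : 0 < n) (hne : n % 2 = 0) {x1 B : ℤ} (G : BG b n x1 B) :
    PRm (chV 1) (Er b n) (zb b n x1) 1 (-1) B (b.m * n) := by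
  obtain ⟨hx, hL, hR, hT⟩ := G
  obtain ⟨z1, z2⟩ := zb_eq (b := b) hx hne
  have hτ : (0 : ℤ) ≤ b.τ * n := by positivity
  have low : ∀ l ∈ Er b n, l.1 - 2 * (zb b n x1).1 + 1 ≤ l.2 - 2 * (zb b n x1).2 := by
    intro l hl
    have ho := Er_odd hl
    have h1 := lt_cc ho
    rw [← h1] at hl ⊢
    rw [mem_Er] at hl
    have h2 := (bkh_bd hb.M0 hn hl.1.1 hl.1.2).1
    unfold lt
    simp only
    omega
  refine ⟨fun l hl => Er_odd hl, ?_, ?_, ?_, ?_⟩
  · intro l hl _ _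
    have := low l hl
    rw [(chV1_G l).1, (chV1_G l).2, (chV1_g _).1, (chV1_g _).2]
    omega
  · intro l hl _ _
    have := low l hl
    rw [(chV1_G l).1, (chV1_G l).2, (chV1_g _).1, (chV1_g _).2]
    omega
  · intro l hl h1 h2
    rw [(chV1_G l).1, (chV1_G l).2, (chV1_g _).1, (chV1_g _).2] at h1 h2
    have ho := (mem_BR.1 hl).2.2
    have h3 := lt_cc ho
    obtain ⟨x, y⟩ : ℤ × ℤ := (cx l, cy l)
    have h4 : l = lt (cx l, cy l) := h3.symm
    rw [h4] at hl h1 h2 ⊢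
    rw [BR_zb hx hne] at hl
    unfold lt at h1 h2
    simp only at h1 h2
    rw [mem_Er]
    have h5 : b.τ * n + b.m * n ≤ cy l := by
      rcases le_total 0 (cx l - cy l - 2 * (zb b n x1).1) with h | h
      · have := h1 h; omega
      · have := h2 h; omega
    have hmn : (0 : ℤ) ≤ b.m * n := by positivity
    have c1 : -((b.m : ℤ) * b.M * n) ≤ cx l := by omega
    have c2 : cx l < 0 := by omega
    have h6 := (bkh_bd hb.M0 hn c1 c2).2
    refine ⟨⟨c1, c2⟩, ⟨by omega, by omega⟩, by omega⟩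
  · intro l hl l' hl' hlB h
    rw [(chV1_G l).1, (chV1_G l).2, (chV1_G l').1, (chV1_G l').2] at h
    have ho := Er_odd hl
    have ho' := (mem_BR.1 hl').2.2
    have e1 : l = lt (cx l, cy l) := (lt_cc ho).symm
    have e2 : l' = lt (cx l', cy l') := (lt_cc ho').symm
    rw [e1] at hl hlB h
    rw [e2] at hl' h ⊢
    rw [BR_zb hx hne] at hl'
    rw [mem_Er] at hl ⊢
    unfold lt at h
    simp only at h
    rw [abs_le] at h
    have c1 : cx l ≤ cx l' := by omega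
    have c2 : cy l ≤ cy l' := by omega
    have c3 : cx l' < 0 := by omega
    have h6 := bkh_anti (b := b) hb.M0 hn c1
    exact ⟨⟨by omega, c3⟩, ⟨by omega, by omega⟩, by omega⟩

/-- **The layer at the bank**: the rows `≥ 1` of `P`. -/
theorem bank_lay (hb : b.Ok δ σ) (hn : 0 < n) (hne : n % 2 = 0) {x1 B ρ : ℤ} (G : BG b n x1 B)
    (hρ1 : b.τ * n ≤ 2 * ρ) (hρ2 : b.m * n < 2 * ρ) {M : Finset (Bool × ℕ)} {D : Set (ℤ × ℤ)}
    {w : Finset (ℤ × ℤ)} {o : Prop}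
    (hD : ∀ x y, 1 ≤ y → lt (x, y) ∉ D)
    (hw : ∀ x y, -((b.m : ℤ) * b.M * n) ≤ x → x < 0 → 1 ≤ y → y < bkh b n x →
      (lt (x, y) ∈ w ↔ if x < x1 then ¬ o else o)) :
    LayW (chV 1) (Er b n) (Upp (Lam b n M) 1) D w (zb b n x1) ρ B (b.τ * n) o (¬ o) := by
  obtain ⟨hx, hL, hR, hT⟩ := G
  obtain ⟨z1, z2⟩ := zb_eq (b := b) hx hne
  have hτ : (0 : ℤ) ≤ b.τ * n := by positivity
  have hodd : ∀ e ∈ Upp (Lam b n M) 1, (e.1 + e.2) % 2 = 1 := fun e he => Lam_odd he.1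
  -- tiles of the upper part in coordinates
  have key : ∀ {e : ℤ × ℤ}, e ∈ Upp (Lam b n M) 1 → e = lt (cx e, cy e) ∧ 1 ≤ cy e := by
    intro e he
    have h1 := lt_cc (hodd e he)
    exact ⟨h1.symm, he.2⟩
  -- a tile of the box which is not in the room is in the plate
  have plate : ∀ {e : ℤ × ℤ}, e ∈ Upp (Lam b n M) 1 → e ∉ Er b n → e ∈ BR (zb b n x1) B →
      (-((b.m : ℤ) * b.M * n) ≤ cx e ∧ cx e < 0) ∧ cy e < bkh b n (cx e) := by
    intro e h1 h2 h3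
    obtain ⟨e1, h4⟩ := key h1
    rw [e1, BR_zb hx hne] at h3
    rw [e1, mem_Er] at h2
    have c1 : -((b.m : ℤ) * b.M * n) ≤ cx e := by omega
    have c2 : cx e < 0 := by omega
    refine ⟨⟨c1, c2⟩, ?_⟩
    by_contra hc
    exact h2 ⟨⟨c1, c2⟩, ⟨by omega, by omega⟩, by omega⟩
  refine ⟨hodd, ?_, ?_, ?_, ?_⟩
  · intro e h1 _ _ _
    obtain ⟨e1, h4⟩ := key h1
    rw [e1]
    exact hD _ _ h4
  · intro e h1 _ _
    obtain ⟨e1, h4⟩ := key h1
    rw [(chV1_G e).1, (chV1_G e).2, (chV1_g _).1, (chV1_g _).2]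
    rw [e1]
    unfold lt
    simp only
    rcases abs_cases (cx e - cy e - 2 * (zb b n x1).1) with ⟨h5, h6⟩ | ⟨h5, h6⟩ <;> omega
  · intro e h1 h2 h3 h5
    obtain ⟨e1, h4⟩ := key h1
    obtain ⟨⟨c1, c2⟩, c3⟩ := plate h1 h2 h3
    rw [(chV1_G e).2, (chV1_g _).2] at h5
    rw [e1] at h5 ⊢
    unfold lt at h5
    simp only at h5
    refine ⟨hD _ _ h4, ?_⟩
    rw [hw _ _ c1 c2 h4 c3, if_neg (by omega)]
  · intro e h1 h2 h3 h5
    obtain ⟨e1, h4⟩ := key h1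
    obtain ⟨⟨c1, c2⟩, c3⟩ := plate h1 h2 h3
    have h6 := (bkh_bd hb.M0 hn c1 c2).2
    rw [(chV1_G e).2, (chV1_g _).2] at h5
    rw [e1] at h5 ⊢
    unfold lt at h5
    simp only at h5
    refine ⟨hD _ _ h4, ?_⟩
    rw [hw _ _ c1 c2 h4 c3, if_pos (by omega)]

end Pool.Agent.H7.W
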