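import Mathlib
import Pool.Agent.H7.W.XRoom
import Pool.Agent.H87.W.Fields

set_option autoImplicit false
open Finset

/-! # XP, the numbers of the block at the upper bank of `P` and the probability of the half circuit

`BN b n x1 S ρ M B` : `S` = size of the set of moving ends, `ρ`, `M` = radii of the annulus, `B` = box.
`bank_half` : for a point `x` of the bank, scale `s < r0`, thin boxes and large `h` such numbers exist with
`2 s R ≤ S`, and the open half circuit exists except for a probability `≤ C (s / r0) ^ α`. -/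

namespace Pool.Agent.H7.W

open Pool.Agent.H61.W Pool.Agent.H6.W Pool.Agent.H58.W Pool.Agent.H21.W Pool.Agent.H71.W
open Pool.Agent.H70.W
open Pool.Agent.H87.Fld (Rb)
open Pool.Agent.H33.Q1 (lt)

variable {b : JBox} {δ σ : ℝ} {n : ℤ}

/-- **The numbers of the block.** -/
structure BN (b : JBox) (n x1 S ρ M B : ℤ) : Prop where
  G : BG b n x1 B
  L : -((b.m : ℤ) * b.M * n) ≤ x1 - 2 * B - 8
  R : x1 + 2 * B + 8 < 0
  T : b.τ * n + 2 * B + 8 < b.H * n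
  P : (b.m : ℤ) * b.M ≤ b.X
  S2 : 2 ≤ S
  SH : S + 2 ≤ b.H * n
  ρS : S + b.τ * n + b.m * n + 3 ≤ ρ
  ρM : ρ ≤ M
  BM : M + b.m * n + b.τ * n + 3 ≤ B

lemma m_le (hb : b.Ok δ σ) (hσ : σ * δ ≤ 1) : (b.m : ℝ) ≤ nP b := by
  have hM := M_pos hb
  have hd := d_pos hb
  have hH := H_pos hb
  have h1 : (b.m : ℝ) * b.M ≤ b.X := by
    rw [hb.len]
    have h2 := hb.X_ge
    have h3 : δ * (σ * b.H) ≤ δ * b.X := by
      calc δ * (σ * b.H) = (σ * δ) * b.H := by ring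
        _ ≤ 1 * b.H := mul_le_mul_of_nonneg_right hσ hH.le
        _ = b.H := one_mul _
        _ ≤ _ := h2
    exact le_of_mul_le_mul_left h3 hd
  rw [← nP_real hb, le_div_iff₀ hM]
  exact h1

lemma gp_real (hb : b.Ok δ σ) {h : ℕ} (x : ℝ) :
    x * Rb b h ≤ (gp b (2 * h) x : ℝ) ∧ (gp b (2 * h) x : ℝ) ≤ (x + δ) * Rb b h := by
  have hM := M_pos hb
  have hH := H_pos hb
  set q : ℝ := -x * b.H / b.M with hq
  have h1 := Int.floor_le q
  have h2 := Int.lt_floor_add_one q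
  have hqM : q * b.M = -x * b.H := by rw [hq, div_mul_cancel₀ _ hM.ne']
  have hh : (0 : ℝ) ≤ 2 * h := by positivity
  have e : (gp b (2 * h) x : ℝ) = -((⌊q⌋ : ℝ) * b.M * (2 * h)) := by
    unfold gp
    rw [← hq]
    push_cast
    ring
  rw [e]
  unfold Rb
  constructor
  · have h3 : (⌊q⌋ : ℝ) * b.M ≤ -x * b.H := by
      rw [← hqM]; exact mul_le_mul_of_nonneg_right h1 hM.le
    nlinarith [mul_le_mul_of_nonneg_right h3 hh]
  · have h3 : -x * b.H ≤ ((⌊q⌋ : ℝ) + 1) * b.M := by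
      rw [← hqM]; exact mul_le_mul_of_nonneg_right h2.le hM.le
    have h4 := hb.M_le
    have h5 : -x * b.H - δ * b.H ≤ (⌊q⌋ : ℝ) * b.M := by nlinarith
    nlinarith [mul_le_mul_of_nonneg_right h5 hh]

lemma gp_even (b : JBox) (h : ℕ) (x : ℝ) : gp b (2 * h) x % 2 = 0 := by
  have : gp b (2 * h) x = 2 * (-(⌊-x * b.H / b.M⌋ * b.M * h)) := by unfold gp; ring
  omega

/-- **Numbers of the block**, `x` a point of the bank -/
theorem bank_num {x : ℝ} (hx : x ∈ Set.Ioo (-σ) 0) {r1 s : ℝ} (hr : 0 < r1) (hrx : 16 * r1 ≤ -x)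
    (hrσ : 16 * r1 ≤ σ + x) (hr1 : 16 * r1 ≤ 1) (hs : 0 < s) (hsr : s < r1 / 4) (hb : b.Ok δ σ)
    (hδs : δ ≤ s / 8) (hδσ : σ * δ ≤ 1) {h : ℕ} (hh : 16 ≤ s * Rb b h) :
    ∃ S ρ M B : ℤ, BN b (2 * h) (gp b (2 * h) x) S ρ M B ∧ 2 * s * Rb b h ≤ S ∧
      (ρ : ℝ) ≤ 4 * s * Rb b h ∧ r1 * Rb b h ≤ M := by
  set R := Rb b h with hR
  have hH := H_pos hb
  have hσ : 0 < σ := by have := hx.1; have := hx.2; linarith
  have hd := d_pos hb
  have hR0 : 0 < R := by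
    by_contra hc
    nlinarith
  have eR : ((b.H : ℝ) * (2 * h)) = R := by rw [hR]; unfold Rb; ring
  have hh0 : (0 : ℝ) ≤ 2 * h := by positivity
  have hth := thin hb
  have hm := m_le hb hδσ
  have t0 : (0 : ℝ) ≤ b.τ := by positivity
  have m0 : (0 : ℝ) ≤ b.m := by positivity
  have hT1 : (b.τ : ℝ) * (2 * h) ≤ s / 4 * R := by
    have h1 : (b.τ : ℝ) ≤ 2 * δ * b.H := by linarith
    calc (b.τ : ℝ) * (2 * h) ≤ (2 * δ * b.H) * (2 * h) := mul_le_mul_of_nonneg_right h1 hh0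
      _ = 2 * δ * R := by rw [← eR]; ring
      _ ≤ s / 4 * R := mul_le_mul_of_nonneg_right (by linarith) hR0.le
  have hN1 : (b.m : ℝ) * (2 * h) ≤ s / 4 * R := by
    have h1 : (b.m : ℝ) ≤ 2 * δ * b.H := by linarith
    calc (b.m : ℝ) * (2 * h) ≤ (2 * δ * b.H) * (2 * h) := mul_le_mul_of_nonneg_right h1 hh0
      _ = 2 * δ * R := by rw [← eR]; ring
      _ ≤ s / 4 * R := mul_le_mul_of_nonneg_right (by linarith) hR0.le
  have hmM : (b.m : ℝ) * b.M * (2 * h) = σ * R := by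
    rw [hb.len, ← eR]; ring
  obtain ⟨hg1, hg2⟩ := gp_real hb (h := h) x
  rw [← hR] at hg1 hg2
  have hsR : s * R < r1 / 4 * R := mul_lt_mul_of_pos_right hsr hR0
  have hxR : x * R ≤ -(16 * r1) * R := mul_le_mul_of_nonneg_right (by linarith) hR0.le
  have hσR : 16 * r1 * R ≤ (σ + x) * R := mul_le_mul_of_nonneg_right hrσ hR0.le
  have h1R : 16 * r1 * R ≤ 1 * R := mul_le_mul_of_nonneg_right hr1 hR0.le
  have hδR : δ * R ≤ s / 8 * R := mul_le_mul_of_nonneg_right hδs hR0.le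
  refine ⟨⌈2 * s * R⌉, ⌈2 * s * R⌉ + b.τ * (2 * h) + b.m * (2 * h) + 3, ⌊2 * r1 * R⌋,
    ⌊2 * r1 * R⌋ + b.m * (2 * h) + b.τ * (2 * h) + 3, ?_, Int.le_ceil _, ?_, ?_⟩
  · have c1 := Int.le_ceil (2 * s * R)
    have c2 := Int.ceil_lt_add_one (2 * s * R)
    have c3 := Int.floor_le (2 * r1 * R)
    have c4 := Int.lt_floor_add_one (2 * r1 * R)
    have L : -((b.m : ℤ) * b.M * (2 * h)) ≤ gp b (2 * h) x -
        2 * (⌊2 * r1 * R⌋ + b.m * (2 * h) + b.τ * (2 * h) + 3) - 8 := by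
      have : -((b.m : ℝ) * b.M * (2 * h)) ≤ gp b (2 * h) x -
        2 * (⌊2 * r1 * R⌋ + b.m * (2 * h) + b.τ * (2 * h) + 3) - 8 := by
        rw [hmM]; linarith
      exact_mod_cast this
    have Rr : gp b (2 * h) x + 2 * (⌊2 * r1 * R⌋ + b.m * (2 * h) + b.τ * (2 * h) + 3) + 8 < 0 := by
      have : (gp b (2 * h) x : ℝ) + 2 * (⌊2 * r1 * R⌋ + b.m * (2 * h) + b.τ * (2 * h) + 3) + 8 < 0 := by
        linarith
      exact_mod_cast this
    have T : b.τ * (2 * h) + 2 * (⌊2 * r1 * R⌋ + b.m * (2 * h) + b.τ * (2 * h) + 3) + 8 <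
        b.H * (2 * (h : ℤ)) := by
      have : (b.τ : ℝ) * (2 * h) + 2 * (⌊2 * r1 * R⌋ + b.m * (2 * h) + b.τ * (2 * h) + 3) + 8 <
          b.H * (2 * h) := by
        rw [eR]; linarith
      exact_mod_cast this
    refine ⟨⟨gp_even b h x, by omega, by omega, by omega⟩, L, Rr, T, ?_, ?_, ?_, le_rfl, ?_, le_rfl⟩
    · have h1 : (b.m : ℝ) * b.M ≤ b.X := by
        have h2 := hb.X_ge
        rw [hb.len]
        have h3 : δ * (σ * b.H) ≤ δ * b.X := by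
          calc δ * (σ * b.H) = (σ * δ) * b.H := by ring
            _ ≤ 1 * b.H := mul_le_mul_of_nonneg_right hδσ hH.le
            _ = b.H := one_mul _
            _ ≤ _ := h2
        exact le_of_mul_le_mul_left h3 hd
      exact_mod_cast h1
    · have : (2 : ℝ) ≤ ⌈2 * s * R⌉ := by linarith
      exact_mod_cast this
    · have : (⌈2 * s * R⌉ : ℝ) + 2 ≤ b.H * (2 * h) := by
        rw [eR]; linarith
      exact_mod_cast this
    · have : (⌈2 * s * R⌉ : ℝ) + b.τ * (2 * h) + b.m * (2 * h) + 3 ≤ ⌊2 * r1 * R⌋ := by linarith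
      exact_mod_cast this
  · have c2 := Int.ceil_lt_add_one (2 * s * R)
    push_cast
    linarith
  · have c4 := Int.lt_floor_add_one (2 * r1 * R)
    linarith

/-- **The half circuit at the bank.** -/
theorem bank_half : ∃ C α : ℝ, 0 < C ∧ 0 < α ∧ ∀ (σ x : ℝ), x ∈ Set.Ioo (-σ) 0 → ∃ r0 > 0,
    ∀ s : ℝ, 0 < s → s < r0 → ∃ δ0 > 0, ∀ (b : JBox) (δ : ℝ), 0 < δ → δ ≤ δ0 → b.Ok δ σ →
    ∃ h0 : ℕ, ∀ h : ℕ, h0 ≤ h → ∃ S ρ M B : ℤ, BN b (2 * h) (gp b (2 * h) x) S ρ M B ∧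
      2 * s * Rb b h ≤ S ∧ δ * Rb b h ≤ s * Rb b h ∧
      ∀ F : Finset (ℤ × ℤ), Er b (2 * h) ∩ An (zb b (2 * h) (gp b (2 * h) x)) ρ M ⊆ F →
      ∀ (β : Type) [DecidableEq β] (bl : ℤ × ℤ → β),
      (∀ l ∈ Er b (2 * h), ∀ l' ∈ Er b (2 * h), bl l = bl l' → l = l') →
      PB F bl (fun ω => ¬ HC (chV 1) (Er b (2 * h)) (zb b (2 * h) (gp b (2 * h) x)) B ρ M ω) ≤
        C * (s / r0) ^ α := by
  obtain ⟨C, α, hC, hα, H⟩ := prm_halfB
  refine ⟨C, α, hC, hα, fun σ x hx => ?_⟩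
  have h1 := hx.1
  have h2 := hx.2
  set r1 : ℝ := min (min (-x) (σ + x)) 1 / 16 with hr1
  have hm : 0 < min (min (-x) (σ + x)) 1 := by
    refine lt_min (lt_min ?_ ?_) one_pos <;> linarith
  have hr : 0 < r1 := by rw [hr1]; positivity
  have hmin : min (min (-x) (σ + x)) 1 = 16 * r1 := by rw [hr1]; ring
  have hrx : 16 * r1 ≤ -x := by rw [← hmin]; exact (min_le_left _ _).trans (min_le_left _ _)
  have hrσ : 16 * r1 ≤ σ + x := by rw [← hmin]; exact (min_le_left _ _).trans (min_le_right _ _)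
  have hr11 : 16 * r1 ≤ 1 := by rw [← hmin]; exact min_le_right _ _
  refine ⟨r1 / 4, by positivity, fun s hs hsr => ?_⟩
  have hσ : 0 < σ := by linarith
  refine ⟨min (s / 8) (1 / σ), lt_min (by positivity) (by positivity), fun b δ hδ hδ0 hb => ?_⟩
  have hδs : δ ≤ s / 8 := hδ0.trans (min_le_left _ _)
  have hδσ : σ * δ ≤ 1 := by
    have := hδ0.trans (min_le_right _ _)
    rw [le_div_iff₀ hσ] at this
    linarith
  refine ⟨⌈8 / s⌉₊ + 1, fun h hh => ?_⟩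
  have hH := H_pos hb
  have hH1 : (1 : ℝ) ≤ b.H := by exact_mod_cast hb.H0
  have hhs : 8 / s ≤ h := by
    have h3 := Nat.le_ceil (8 / s)
    have h4 : ((⌈8 / s⌉₊ : ℕ) : ℝ) ≤ h := by exact_mod_cast (by omega : ⌈8 / s⌉₊ ≤ h)
    linarith
  have hR16 : 16 ≤ s * Rb b h := by
    rw [div_le_iff₀ hs] at hhs
    unfold Rb
    have : (0 : ℝ) ≤ s * h := by positivity
    nlinarith
  have hR0 : 0 < Rb b h := by
    by_contra hc
    nlinarith
  have hh0 : 0 < h := by omega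
  obtain ⟨S, ρ, M, B, hN, hS, hρ, hM⟩ := bank_num hx hr hrx hrσ hr11 hs hsr hb hδs hδσ hR16
  refine ⟨S, ρ, M, B, hN, hS, mul_le_mul_of_nonneg_right (by linarith) hR0.le, ?_⟩
  intro F hF β _ bl hbl
  have hn : (0 : ℤ) < 2 * h := by positivity
  have hne : (2 * (h : ℤ)) % 2 = 0 := by omega
  have t1 : (0 : ℤ) ≤ b.τ * (2 * h) := by positivity
  have t2 : (0 : ℤ) ≤ b.m * (2 * h) := by positivity
  have hρS := hN.ρS
  have hρM := hN.ρM
  have hBM := hN.BM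
  have hS2 := hN.S2
  have hP := bank_prm hb hn hne hN.G
  refine (H (chV 1) (Er b (2 * h)) (zb b (2 * h) (gp b (2 * h) x)) 1 1 (-1) (b.m * (2 * h)) ρ M B
    (Or.inl rfl) (Or.inr rfl) (Or.inl rfl) (Or.inr rfl) (by omega) t2 (by omega) hρM (by omega) hP F hF
    β bl (fun l hl l' hl' he => hbl l (mem_inter.1 hl).1 l' (mem_inter.1 hl').1 he)).trans ?_
  apply mul_le_mul_of_nonneg_left _ hC.le
  have hM0 : (0 : ℝ) < M := lt_of_lt_of_le (by positivity) hM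
  have hρ0 : (0 : ℝ) ≤ ρ := by exact_mod_cast (by omega : (0 : ℤ) ≤ ρ)
  apply Real.rpow_le_rpow (by positivity) _ hα.le
  rw [div_le_div_iff₀ hM0 (by positivity)]
  calc (ρ : ℝ) * (r1 / 4) ≤ (4 * s * Rb b h) * (r1 / 4) :=
        mul_le_mul_of_nonneg_right hρ (by positivity)
    _ = s * (r1 * Rb b h) := by ring
    _ ≤ s * M := mul_le_mul_of_nonneg_left hM hs.le

end Pool.Agent.H7.W
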