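import Mathlib
import Pool.Agent.H7.W.XGeo
import Pool.Agent.H45.W.Sym
import Pool.Agent.H82.W.Simu

set_option autoImplicit false
open Finset

/-! # XP, the push

World 1 (thin region `LamT`): string `strD v` to the right, rows `0` and `1` deleted left of `x1`. World 2
(thick region `Lam`): only the row `0` deleted left of `x1`, the ceiling row in the colour of the ceiling.
Everything above the line `L` (row `1` left of the block, string row right of the block) goes one row down with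
flipped state: `xp_move` = `DownMove`. `PSt` : the states of the tiles of the two worlds. `xp_simu` : 82's
simulation; `R_true`, `R_false` : images of the corners at the marks; `KB_img` : images of the corners at the
block; `mark_open`, `mark_closed` : the image of the alive corner of a ceiling mark is joined to the alive
corner. -/

namespace Pool.Agent.H7.W

open Pool.Agent.H61.W Pool.Agent.H6.W Pool.Agent.H58.W Pool.Agent.H21.W Pool.Agent.H71.W
open Pool.Agent.H73.W (LamT)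
open Pool.Agent.H13.W Pool.Agent.H99.W Pool.Agent.H75.Perc Pool.Agent.H75.TwoArm
open Pool.Agent.H45.W (DownMove SRd sw sw_sw swS swF SG_sw reach_sw SR_sw swS_diff)
open Pool.Agent.H82.W (Simu SG_split exists_SR SR_uniq)
open Pool.Agent.H19.W (cx cy lt_cc cx_lt cy_lt cx_dn cy_dn cx_up cy_up ea we cx_ea cy_ea cx_we cy_we
  shared odd_dn odd_up tile_ext)
open Pool.Agent.H33.Q1 (lt lt_odd lt_inj)

/-- down moves are simulations -/
theorem simu_down {Λ1 Λ2 D1 D2 : Set (ℤ × ℤ)} {w1 w2 : Finset (ℤ × ℤ)} {Bl S : Set (ℤ × ℤ)}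
    (M : DownMove Λ1 Λ2 D1 D2 w1 w2 Bl S) :
    Simu (SG Λ1 D1 w1) (SG (Λ1 \ Bl) D1 w1) (KB Bl) (SG Λ2 D2 w2) (SRd Λ1 D1 Bl S) where
  split _ _ h := SG_split h
  step _ _ _ h hR := M.sim_step h hR
  ex c _ d h := by
    obtain ⟨u', hu⟩ := exists_SR M.sw (u := sw c) (v := sw d) (by rw [← swS_diff]; exact SG_sw.2 h)
    exact ⟨sw u', by rw [← SR_sw, sw_sw]; exact hu⟩
  uniq c c' c'' h h' := by
    have := SR_uniq M.sw (SR_sw.2 h) (SR_sw.2 h')
    exact reach_sw.1 this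

/-! ### The sets -/

/-- tiles above the line -/
def AbL (v : ℤ × ℤ) (a0 a1 y1 x y : ℤ) : Prop :=
  (x < a0 ∧ 2 ≤ y) ∨ (a1 < x ∧ v.2 < y) ∨ ((a0 ≤ x ∧ x ≤ a1) ∧ y1 < y)

/-- tiles below the line, neither deleted nor in the block -/
def BeL (v : ℤ × ℤ) (x1 a0 a1 x y : ℤ) : Prop :=
  (x < a0 ∧ y < 0) ∨ (a1 < x ∧ y < v.2) ∨ ((a0 ≤ x ∧ x ≤ a1) ∧ (y < 0 ∨ (y = 0 ∧ x1 ≤ x)))

/-- the strip -/
def SX (v : ℤ × ℤ) (a0 a1 y1 : ℤ) : Set (ℤ × ℤ) := {e | AbL v a0 a1 y1 (cx e) (cy e)}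

/-- the block -/
def BX (a0 a1 y1 : ℤ) : Set (ℤ × ℤ) := {e | (a0 ≤ cx e ∧ cx e ≤ a1) ∧ (1 ≤ cy e ∧ cy e ≤ y1)}

/-- deleted tiles of world 1 -/
def DX (v : ℤ × ℤ) (x1 : ℤ) : Set (ℤ × ℤ) :=
  lt '' (strD v ∪ {p | (p.2 = 0 ∨ p.2 = 1) ∧ p.1 < x1})

/-- deleted tiles of world 2 -/
def DY (x1 : ℤ) : Set (ℤ × ℤ) := lt '' slD true x1

lemma mem_DX {v : ℤ × ℤ} {x1 : ℤ} {e : ℤ × ℤ} (ho : (e.1 + e.2) % 2 = 1) : e ∈ DX v x1 ↔
    (cy e = v.2 ∧ v.1 ≤ cx e) ∨ ((cy e = 0 ∨ cy e = 1) ∧ cx e < x1) := by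
  constructor
  · rintro ⟨p, hp, rfl⟩
    rw [cx_lt, cy_lt]
    exact hp
  · intro h
    exact ⟨(cx e, cy e), h, lt_cc ho⟩

lemma mem_DY {x1 : ℤ} {e : ℤ × ℤ} (ho : (e.1 + e.2) % 2 = 1) : e ∈ DY x1 ↔ cy e = 0 ∧ cx e < x1 := by
  constructor
  · rintro ⟨p, hp, rfl⟩
    rw [cx_lt, cy_lt]
    exact hp
  · intro h
    exact ⟨(cx e, cy e), h, lt_cc ho⟩

/-- geometry of the block -/
structure XG (b : JBox) (n : ℤ) (v : ℤ × ℤ) (x1 a0 a1 y1 : ℤ) : Prop where
  X0 : -(b.X * n : ℤ) ≤ a0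
  X1 : a1 < b.X * n
  v0 : a0 ≤ v.1
  v1 : v.1 ≤ a1
  x0 : a0 ≤ x1
  x1 : x1 ≤ a1
  r1 : 1 ≤ v.2
  r2 : v.2 ≤ y1
  y2 : 2 ≤ y1
  yH : y1 + 2 ≤ b.H * n

/-- **The states of the tiles of the two worlds.** -/
structure PSt (b : JBox) (n : ℤ) (v : ℤ × ℤ) (w : Bool) (M : Finset (Bool × ℕ)) (x1 a0 a1 y1 : ℤ)
    (w1 w2 : Finset (ℤ × ℤ)) : Prop where
  /-- layer of world 1 -/
  L1 : ∀ x y, lt (x, y) ∈ LamT b n M → ¬ InQ b n x y →
    (lt (x, y) ∈ w1 ↔ lcol b n (colM (bs w) M (some v.2)) x y = true)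
  /-- layer of world 2 -/
  L2 : ∀ x y, lt (x, y) ∈ Lam b n M → ¬ InQ b n x y →
    (lt (x, y) ∈ w2 ↔ lcol b n (colM w M none) x y = true)
  /-- the ceiling row of world 2 -/
  F : ∀ x y, InQ b n x y → 0 ≤ y → ¬ InQ b n x (y + 1) →
    (lt (x, y) ∈ w2 ↔ lcol b n (colM w M none) x (y + 1) = true)
  /-- tiles of the box which go down -/
  DN : ∀ x y, InQ b n x y → AbL v a0 a1 y1 x y → (lt (x, y - 1) ∈ w2 ↔ lt (x, y) ∉ w1)
  /-- tiles of the box which stay -/
  PL : ∀ x y, InQ b n x y → BeL v x1 a0 a1 x y → (lt (x, y) ∈ w2 ↔ lt (x, y) ∈ w1)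

variable {b : JBox} {δ σ : ℝ} {n : ℤ} {v : ℤ × ℤ} {w : Bool} {M : Finset (Bool × ℕ)}
  {x1 a0 a1 y1 : ℤ} {w1 w2 : Finset (ℤ × ℤ)}

lemma bool_not_iff {p : Prop} {c d : Bool} (h : p ↔ c = true) (h' : d = !c) : ¬ p ↔ d = true := by
  rw [h, h']; cases c <;> simp

/-- a strip tile and the tile below it -/
lemma st_dn (hb : b.Ok δ σ) (hn : 0 < n) (G : XG b n v x1 a0 a1 y1)
    (P : PSt b n v w M x1 a0 a1 y1 w1 w2) {x y : ℤ}
    (hT : lt (x, y) ∈ LamT b n M) (hS : AbL v a0 a1 y1 x y) :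
    lt (x, y - 1) ∈ w2 ↔ lt (x, y) ∉ w1 := by
  have hG := G.r1
  have hG2 := G.r2
  have hG3 := G.y2
  have hX1 := G.X1
  have hv0 := G.v0
  have hv1 := G.v1
  have hy : 2 ≤ y := by unfold AbL at hS; omega
  by_cases h1 : InQ b n x y
  · exact P.DN x y h1 hS
  rw [bool_not_iff (P.L1 x y hT h1) rfl]
  have hr : x < b.X * n ∨ v.2 ≤ y := by unfold AbL at hS; omega
  by_cases h2 : InQ b n x (y - 1)
  · have h3 : ¬ InQ b n x (y - 1 + 1) := by rw [sub_add_cancel]; exact h1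
    have h4 := P.F x (y - 1) h2 (by omega) h3
    rw [sub_add_cancel] at h4
    rw [h4, lcol_hi (r := v.2) (by omega) hr]
  · have h3 := dn_mem_Lam hb hn (by omega) hT
    rw [P.L2 x (y - 1) h3 h2, lcol_dn hb hn (by omega) hr hT h2]

/-- a plain tile -/
lemma st_pl (hb : b.Ok δ σ) (hn : 0 < n) (G : XG b n v x1 a0 a1 y1)
    (P : PSt b n v w M x1 a0 a1 y1 w1 w2) {x y : ℤ}
    (hT : lt (x, y) ∈ LamT b n M) (hS : BeL v x1 a0 a1 x y) :
    lt (x, y) ∈ w2 ↔ lt (x, y) ∈ w1 := by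
  by_cases h1 : InQ b n x y
  · exact P.PL x y h1 hS
  rw [P.L1 x y hT h1, P.L2 x y (LamT_sub hT) h1, lcol_lo (r := v.2)]
  have hG := G.r1
  have hG2 := G.r2
  have hG3 := G.yH
  have hX0 := G.X0
  have hX1 := G.X1
  have hv0 := G.v0
  have hv1 := G.v1
  unfold BeL at hS
  by_cases h2 : 0 ≤ y ∧ y < b.H * n
  · rw [LamT_band hb hn (by omega) h2.2] at hT
    rw [InQ_band hb hn (by omega) h2.2] at h1
    omega
  · omega

/-- **The push.** -/
theorem xp_move (hb : b.Ok δ σ) (hn : 0 < n) (G : XG b n v x1 a0 a1 y1)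
    (P : PSt b n v w M x1 a0 a1 y1 w1 w2) :
    DownMove (LamT b n M) (Lam b n M) (DX v x1) (DY x1) w1 w2 (BX a0 a1 y1) (SX v a0 a1 y1) := by
  obtain ⟨hX0, hX1, hv0, hv1, hx0, hx1, hr1, hr2, hy2, hyH⟩ := G
  have G : XG b n v x1 a0 a1 y1 := ⟨hX0, hX1, hv0, hv1, hx0, hx1, hr1, hr2, hy2, hyH⟩
  have mS : ∀ {e : ℤ × ℤ}, e ∈ SX v a0 a1 y1 ↔ AbL v a0 a1 y1 (cx e) (cy e) := Iff.rfl
  have mB : ∀ {e : ℤ × ℤ}, e ∈ BX a0 a1 y1 ↔
      (a0 ≤ cx e ∧ cx e ≤ a1) ∧ (1 ≤ cy e ∧ cy e ≤ y1) := Iff.rfl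
  have hlt : ∀ {e : ℤ × ℤ}, e ∈ LamT b n M → lt (cx e, cy e) = e := fun h => lt_cc (LamT_odd h)
  have hdn : ∀ {e : ℤ × ℤ}, e ∈ LamT b n M → lt (cx e, cy e - 1) = dn e := by
    intro e he
    have h1 := LamT_odd he
    have h2 := lt_cc (odd_dn.2 h1)
    rw [cx_dn, cy_dn] at h2
    exact h2
  have hup : ∀ {e : ℤ × ℤ}, (e.1 + e.2) % 2 = 1 → lt (cx e, cy e + 1) = up e := by
    intro e h1
    have h2 := lt_cc (odd_up.2 h1)
    rw [cx_up, cy_up] at h2
    exact h2
  refine ⟨fun e he => LamT_odd he, ?_, ?_, ?_, ?_, ?_⟩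
  · -- plain
    intro e h1 h2 h3 h4
    have ho := LamT_odd h1
    rw [mem_DX ho] at h4
    rw [mB] at h2
    rw [mS] at h3
    have hBe : BeL v x1 a0 a1 (cx e) (cy e) := by
      unfold AbL at h3
      unfold BeL
      omega
    refine ⟨LamT_sub h1, ?_, ?_⟩
    · rw [mem_DY ho]; omega
    · have := st_pl hb hn G P (x := cx e) (y := cy e) (by rw [hlt h1]; exact h1) hBe
      rwa [hlt h1] at this
  · -- strip
    intro e h1 h2 h3
    have ho := LamT_odd h1
    rw [mS] at h3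
    rw [mem_DX ho, mem_DY (odd_dn.2 ho), cx_dn, cy_dn]
    have h1' : lt (cx e, cy e) ∈ LamT b n M := by rw [hlt h1]; exact h1
    have := st_dn hb hn G P h1' h3
    rw [hlt h1, hdn h1] at this
    refine ⟨?_, ?_, ?_, this⟩
    · unfold AbL at h3; omega
    · rw [← hdn h1]
      exact dn_mem_Lam hb hn (by unfold AbL at h3; omega) h1'
    · unfold AbL at h3; omega
  · -- deleted tiles
    intro e h1 h2 h3
    have ho := LamT_odd h1
    rw [mem_DX ho] at h3
    rw [mB] at h2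
    have h1' : lt (cx e, cy e) ∈ LamT b n M := by rw [hlt h1]; exact h1
    rw [LamT_band hb hn (by omega) (by omega)] at h1'
    by_cases h4 : cy e = 0 ∧ cx e < x1
    · right
      refine ⟨?_, LamT_sub h1, (mem_DY ho).2 h4⟩
      rw [mS, cx_up, cy_up]
      unfold AbL
      omega
    · left
      refine ⟨?_, ?_, ?_⟩
      · rw [mS, cx_up, cy_up]
        unfold AbL
        omega
      · rw [← hup ho, LamT_band hb hn (by omega) (by omega)]
        exact h1'
      · rw [mB, cx_up, cy_up]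
        omega
  · -- strip tile next to a plain tile
    intro e h1 h2 h3 e' k1 k2 k3 k4 c hc hc'
    exfalso
    have ho := LamT_odd h1
    have ho' := LamT_odd k1
    rw [mem_DX ho'] at k4
    rw [mB] at h2 k2
    rw [mS] at h3 k3
    unfold AbL at h3 k3
    rcases shared ho ho' hc hc' with h | ⟨-, h⟩ | ⟨-, h⟩ | ⟨-, h⟩ | ⟨-, h⟩
    · subst h; exact k3 h3
    · subst h
      rw [cx_ea, cy_ea] at k2 k3 k4
      omega
    · subst h
      rw [cx_we, cy_we] at k2 k3 k4
      omega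
    · subst h
      rw [cx_up, cy_up] at k2 k3 k4
      omega
    · subst h
      rw [cx_dn, cy_dn] at k2 k3 k4
      omega
  · -- strip tile next to a deleted tile
    intro e h1 h2 h3 e' k1 k2 k3 c hc hc'
    have ho := LamT_odd h1
    have ho' := LamT_odd k1
    rw [mem_DX ho'] at k3
    rw [mB] at h2 k2
    rw [mS] at h3
    unfold AbL at h3
    rcases shared ho ho' hc hc' with h | ⟨-, h⟩ | ⟨-, h⟩ | ⟨-, h⟩ | ⟨h0, h⟩
    · exfalso
      subst h
      omega
    · exfalso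
      subst h
      rw [cx_ea, cy_ea] at k2 k3
      omega
    · exfalso
      subst h
      rw [cx_we, cy_we] at k2 k3
      omega
    · exfalso
      subst h
      rw [cx_up, cy_up] at k2 k3
      omega
    · subst h
      refine ⟨?_, ?_⟩
      · rw [h0]
        unfold eN eS dn
        simp
      · rw [mS, cx_up, cy_up, cx_dn, cy_dn]
        unfold AbL
        omega

/-- **The simulation.** -/
theorem xp_simu (hb : b.Ok δ σ) (hn : 0 < n) (G : XG b n v x1 a0 a1 y1)
    (P : PSt b n v w M x1 a0 a1 y1 w1 w2) :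
    Simu (SG (LamT b n M) (DX v x1) w1) (SG (LamT b n M \ BX a0 a1 y1) (DX v x1) w1)
      (KB (BX a0 a1 y1)) (SG (Lam b n M) (DY x1) w2)
      (SRd (LamT b n M) (DX v x1) (BX a0 a1 y1) (SX v a0 a1 y1)) :=
  simu_down (xp_move hb hn G P)

/-! ### Images of the corners -/

/-- tiles of a corner -/
lemma KB_iff {Bl : Set (ℤ × ℤ)} {c : ℤ × ℤ} : c ∈ KB Bl ↔ ∃ e ∈ Bl, (e.1 + e.2) % 2 = 1 ∧ Sd e c := by
  constructor
  · have hl : (lab c).1 + (lab c).2 = (lab c).1 + (lab c).2 := rfl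
    have h1 : ((lab c).1 + (lab c).2) % 2 = 1 ∧ ((plab c).1 + (plab c).2) % 2 = 1 := by
      obtain ⟨p, q⟩ := c
      unfold lab plab
      rcases Int.emod_two_eq_zero_or_one p with h | h <;>
        rcases Int.emod_two_eq_zero_or_one q with h' | h' <;> simp [h, h'] <;> omega
    rintro (h | h)
    · exact ⟨_, h, h1.1, side_cases c (Or.inl rfl)⟩
    · exact ⟨_, h, h1.2, side_cases c (Or.inr rfl)⟩
  · rintro ⟨e, he, ho, hs⟩
    rcases of_side ho c hs with h | h
    · exact Or.inl (h ▸ he)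
    · exact Or.inr (h ▸ he)

/-- **The images of the corners at the block are corners at the block.** -/
theorem KB_img (G : XG b n v x1 a0 a1 y1) {c c' : ℤ × ℤ} (hc : c ∈ KB (BX a0 a1 y1))
    (hR : SRd (LamT b n M) (DX v x1) (BX a0 a1 y1) (SX v a0 a1 y1) c c') :
    c' ∈ KB (BX a0 a1 y1) := by
  obtain ⟨hX0, hX1, hv0, hv1, hx0, hx1, hr1, hr2, hy2, hyH⟩ := G
  rcases hR with ⟨rfl, -⟩ | ⟨rfl, e, h1, h2, h3, h4⟩
  · exact hc
  rw [KB_iff] at hc ⊢
  obtain ⟨t, ht, ho, hs⟩ := hc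
  have he := LamT_odd h1
  have mS : AbL v a0 a1 y1 (cx e) (cy e) := h3
  have mB : (a0 ≤ cx t ∧ cx t ≤ a1) ∧ (1 ≤ cy t ∧ cy t ≤ y1) := ht
  have hne : ¬ ((a0 ≤ cx e ∧ cx e ≤ a1) ∧ (1 ≤ cy e ∧ cy e ≤ y1)) := h2
  unfold AbL at mS
  refine ⟨dn t, ?_, odd_dn.2 ho, ?_⟩
  · show (a0 ≤ cx (dn t) ∧ cx (dn t) ≤ a1) ∧ (1 ≤ cy (dn t) ∧ cy (dn t) ≤ y1)
    rw [cx_dn, cy_dn]
    rcases shared ho he hs h4 with h | ⟨-, h⟩ | ⟨-, h⟩ | ⟨-, h⟩ | ⟨-, h⟩
    · subst h; exact absurd mB hne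
    · subst h
      rw [cx_ea, cy_ea] at mS
      omega
    · subst h
      rw [cx_we, cy_we] at mS
      omega
    · subst h
      rw [cx_up, cy_up] at mS
      omega
    · subst h
      rw [cx_dn, cy_dn] at mS
      omega
  · unfold Sd at hs ⊢
    rcases hs with rfl | rfl | rfl | rfl
    · left; unfold eW dn; rfl
    · right; left; unfold eE dn; exact Prod.ext (by simp only) (by simp only; ring)
    · right; right; left; unfold eS dn; exact Prod.ext (by simp only) (by simp only)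
    · right; right; right; unfold eN dn; exact Prod.ext (by simp only) (by simp only; ring)

/-- the moving end is at the block -/
theorem zc_KB (G : XG b n v x1 a0 a1 y1) : zc v ∈ KB (BX a0 a1 y1) := by
  obtain ⟨hX0, hX1, hv0, hv1, hx0, hx1, hr1, hr2, hy2, hyH⟩ := G
  rw [KB_iff]
  refine ⟨lt v, ?_, lt_odd v, Or.inl rfl⟩
  show (a0 ≤ cx (lt v) ∧ cx (lt v) ≤ a1) ∧ (1 ≤ cy (lt v) ∧ cy (lt v) ≤ y1)
  rw [cx_lt, cy_lt]
  omega

/-! ### The marks -/

lemma f1_eq (c : Bool × ℕ) : f1 b n c = eW (lt ((dgt b n c).1 + 1, (dgt b n c).2)) := by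
  unfold f1 eE eW lt
  exact Prod.ext (by simp only; ring) (by simp only; ring)

lemma f2_t (i : ℕ) : f2 b n (true, i) =
    eN (lt ((dgt b n (true, i)).1, (dgt b n (true, i)).2 - 1)) := by
  have : f2 b n (true, i) = eS (lt (dgt b n (true, i))) := rfl
  rw [this]
  unfold eS eN lt
  exact Prod.ext (by simp only; ring) (by simp only; ring)

lemma f2_f (i : ℕ) : f2 b n (false, i) =
    eS (lt ((dgt b n (false, i)).1, (dgt b n (false, i)).2 + 1)) := by
  have : f2 b n (false, i) = eN (lt (dgt b n (false, i))) := rfl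
  rw [this]
  unfold eS eN lt
  exact Prod.ext (by simp only; ring) (by simp only; ring)

/-- the corner tile of the box at a ceiling mark -/
lemma InQ_mark_t (hb : b.Ok δ σ) (hn : 0 < n) {i : ℕ} (hi : i < b.K) :
    InQ b n (b.st i * n) (((b.H : ℤ) + i) * n + n - 1) := by
  have h1 : (0 : ℤ) ≤ ((b.H : ℤ) + i) * n := by positivity
  rw [InQ_up hb hn (by omega)]
  have h2 := (hb.st_lo i hi).2
  exact ⟨by nlinarith, Or.inr ⟨i, hi, by omega, by omega, le_rfl⟩⟩

/-- the diagonal tiles have odd first and even second coordinate for even `n`; in any case a tile with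
abscissa `st i n` is no diagonal tile -/
lemma ne_dgt (hn : 2 ≤ n) (i : ℕ) (y : ℤ) (c : Bool × ℕ) : (b.st i * n, y) ≠ dgt b n c := by
  intro h
  have h1 := congrArg Prod.fst h
  have h2 : (dgt b n c).1 = b.st c.2 * n - 1 := rfl
  rw [h2] at h1
  simp only at h1
  have h3 : (b.st c.2 - b.st i) * n = 1 := by linarith
  have h4 : n ∣ 1 := Dvd.intro_left _ h3
  have := Int.le_of_dvd one_pos h4
  omega

/-- tiles at a ceiling mark which belong to the thin region: above the corner, left of the riser -/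
lemma mark_tiles_t (hb : b.Ok δ σ) (hn : 2 ≤ n) {i : ℕ} (hi : i < b.K) :
    lt (b.st i * n, ((b.H : ℤ) + i + 1) * n) ∈ LamT b n M ∧
      lt (b.st i * n - 1, ((b.H : ℤ) + i + 1) * n - 1) ∈ LamT b n M := by
  have hq := InQ_mark_t (n := n) hb (by omega) hi
  have he : ((b.H : ℤ) + i + 1) * n = ((b.H : ℤ) + i) * n + n := by ring
  rw [he]
  constructor
  · rw [mem_LamT]
    refine ⟨⟨0, -1, by norm_num, by norm_num, ?_⟩, fun c _ => ne_dgt hn i _ c⟩
    rw [add_zero]
    exact hq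
  · rw [mem_LamT]
    refine ⟨⟨1, 0, by norm_num, by norm_num, ?_⟩, ?_⟩
    · rw [add_zero, sub_add_cancel]
      exact hq
    · rintro ⟨s, k⟩ hc h
      cases s
      · rw [dgt_f, Prod.mk.injEq] at h
        have h1 : (0 : ℤ) ≤ ((b.H : ℤ) + i) * n := by positivity
        have h2 : (0 : ℤ) ≤ ((b.H : ℤ) + k + 1) * n := by positivity
        omega
      · rw [dgt_t, Prod.mk.injEq] at h
        have h3 : ((b.H : ℤ) + i - (b.H + k)) * n = 1 := by linarith [h.2]
        have h4 : n ∣ 1 := Dvd.intro_left _ h3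
        have := Int.le_of_dvd one_pos h4
        omega

/-- **images of the corners at a ceiling mark** -/
theorem R_true (hb : b.Ok δ σ) (hn : 2 ≤ n) (G : XG b n v x1 a0 a1 y1) {i : ℕ} (hi : i < b.K) :
    SRd (LamT b n M) (DX v x1) (BX a0 a1 y1) (SX v a0 a1 y1) (f1 b n (true, i))
      (dn (f1 b n (true, i))) ∧
    SRd (LamT b n M) (DX v x1) (BX a0 a1 y1) (SX v a0 a1 y1) (f2 b n (true, i))
      (dn (f2 b n (true, i))) := by
  obtain ⟨hX0, hX1, hv0, hv1, hx0, hx1, hr1, hr2, hy2, hyH⟩ := G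
  obtain ⟨h1, h2⟩ := mark_tiles_t (M := M) hb hn hi
  have he : ((b.H : ℤ) + i + 1) * n = b.H * n + i * n + n := by ring
  have h0 : (0 : ℤ) ≤ i * n := by positivity
  constructor
  · refine Or.inr ⟨rfl, _, h1, ?_, ?_, ?_⟩
    · rintro ⟨-, -, h⟩
      rw [cy_lt] at h
      simp only at h
      omega
    · show AbL v a0 a1 y1 _ _
      rw [cx_lt, cy_lt]
      unfold AbL
      simp only
      omega
    · left
      rw [f1_eq, dgt_t]
      simp only [sub_add_cancel]
  · refine Or.inr ⟨rfl, _, h2, ?_, ?_, ?_⟩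
    · rintro ⟨-, -, h⟩
      rw [cy_lt] at h
      simp only at h
      omega
    · show AbL v a0 a1 y1 _ _
      rw [cx_lt, cy_lt]
      unfold AbL
      simp only
      omega
    · right; right; right
      rw [f2_t, dgt_t]

/-- the box below the slit -/
lemma InQ_mark_f (hb : b.Ok δ σ) (hn : 0 < n) {i : ℕ} (hi : i < b.K) :
    InQ b n (b.st i * n) (-(((b.H : ℤ) + i) * n) - n) := by
  have h1 : (0 : ℤ) ≤ ((b.H : ℤ) + i) * n := by positivity
  have h2 := InQ_mark_t hb hn hi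
  unfold InQ at h2 ⊢
  rw [mem_Q hb] at h2 ⊢
  have e1 : (-(((b.H : ℤ) + i) * n) - n) / n = -1 - (((b.H : ℤ) + i) * n + n - 1) / n := by
    have e2 : (((b.H : ℤ) + i) * n + n - 1) / n = (b.H : ℤ) + i := by
      apply le_antisymm
      · have := (div_lt_iff' hn (a := (b.H : ℤ) + i + 1) (x := ((b.H : ℤ) + i) * n + n - 1)).2
          (by linarith)
        omega
      · rw [le_div_iff' hn]; omega
    have e3 : (-(((b.H : ℤ) + i) * n) - n) / n = -((b.H : ℤ) + i) - 1 := by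
      have : -(((b.H : ℤ) + i) * n) - n = (-((b.H : ℤ) + i) - 1) * n := by ring
      rw [this, Int.mul_ediv_cancel _ hn.ne']
    rw [e2, e3]; ring
  rw [e1, dst_neg]
  exact h2

/-- tiles at a floor mark which belong to the thin region -/
lemma mark_tiles_f (hb : b.Ok δ σ) (hn : 2 ≤ n) {i : ℕ} (hi : i < b.K) :
    lt (b.st i * n, -(((b.H : ℤ) + i + 1) * n) - 1) ∈ LamT b n M ∧
      lt (b.st i * n - 1, -(((b.H : ℤ) + i + 1) * n)) ∈ LamT b n M := by
  have hq := InQ_mark_f (n := n) hb (by omega) hi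
  have he : ((b.H : ℤ) + i + 1) * n = ((b.H : ℤ) + i) * n + n := by ring
  rw [he]
  have e1 : -(((b.H : ℤ) + i) * n + n) = -(((b.H : ℤ) + i) * n) - n := by ring
  rw [e1]
  constructor
  · rw [mem_LamT]
    refine ⟨⟨0, 1, by norm_num, by norm_num, ?_⟩, fun c _ => ne_dgt hn i _ c⟩
    rw [add_zero, sub_add_cancel]
    exact hq
  · rw [mem_LamT]
    refine ⟨⟨1, 0, by norm_num, by norm_num, ?_⟩, ?_⟩
    · rw [add_zero, sub_add_cancel]
      exact hq
    · rintro ⟨s, k⟩ hc h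
      cases s
      · rw [dgt_f, Prod.mk.injEq] at h
        have h3 : ((b.H : ℤ) + i - (b.H + k)) * n = 1 := by linarith [h.2]
        have h4 : n ∣ 1 := Dvd.intro_left _ h3
        have := Int.le_of_dvd one_pos h4
        omega
      · rw [dgt_t, Prod.mk.injEq] at h
        have h1 : (0 : ℤ) ≤ ((b.H : ℤ) + i) * n := by positivity
        have h2 : (0 : ℤ) ≤ ((b.H : ℤ) + k + 1) * n := by positivity
        omega

/-- **images of the corners at a floor mark** -/
theorem R_false (hb : b.Ok δ σ) (hn : 2 ≤ n) (G : XG b n v x1 a0 a1 y1)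
    {i : ℕ} (hi : i < b.K) :
    SRd (LamT b n M) (DX v x1) (BX a0 a1 y1) (SX v a0 a1 y1) (f1 b n (false, i)) (f1 b n (false, i)) ∧
    SRd (LamT b n M) (DX v x1) (BX a0 a1 y1) (SX v a0 a1 y1) (f2 b n (false, i))
      (f2 b n (false, i)) := by
  obtain ⟨hX0, hX1, hv0, hv1, hx0, hx1, hr1, hr2, hy2, hyH⟩ := G
  obtain ⟨h1, h2⟩ := mark_tiles_f (M := M) hb hn hi
  have he : ((b.H : ℤ) + i + 1) * n = b.H * n + i * n + n := by ring
  have h0 : (0 : ℤ) ≤ i * n := by positivity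
  have hHn : (0 : ℤ) ≤ b.H * n := by positivity
  constructor
  · refine Or.inl ⟨rfl, Or.inl ⟨_, h1, ?_, ?_, ?_, ?_⟩⟩
    · rintro ⟨-, h, -⟩
      rw [cy_lt] at h
      simp only at h
      omega
    · show ¬ AbL v a0 a1 y1 _ _
      rw [cx_lt, cy_lt]
      unfold AbL
      simp only
      omega
    · rw [mem_DX (lt_odd _), cy_lt, cx_lt]
      simp only
      omega
    · left
      rw [f1_eq, dgt_f]
      simp only [sub_add_cancel]
  · refine Or.inl ⟨rfl, Or.inl ⟨_, h2, ?_, ?_, ?_, ?_⟩⟩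
    · rintro ⟨-, h, -⟩
      rw [cy_lt] at h
      simp only at h
      omega
    · show ¬ AbL v a0 a1 y1 _ _
      rw [cx_lt, cy_lt]
      unfold AbL
      simp only
      omega
    · rw [mem_DX (lt_odd _), cy_lt, cx_lt]
      simp only
      omega
    · right; right; left
      rw [f2_f, dgt_f]
      simp only [sub_add_cancel]

/-! ### The alive corner of a ceiling mark in world 2 -/

section tj
variable {D : Set (ℤ × ℤ)} {e : ℤ × ℤ}

/-- closed tile, even first coordinate: south - west, north - east -/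
lemma tj_ec (h1 : e.1 % 2 = 0) (h2 : e.2 % 2 = 1) (hD : e ∉ D) (hw : e ∉ w1) :
    TJ D w1 e (eS e) (eW e) ∧ TJ D w1 e (eN e) (eE e) := by
  obtain ⟨p, q⟩ := e
  simp only at h1 h2
  have a1 : (p + 1) % 2 = 1 := by omega
  have a2 : (q + 1) % 2 = 0 := by omega
  constructor
  · refine Or.inr ⟨hD, Or.inl ?_⟩
    have hl : lab (eS (p, q)) = (p, q) := by
      unfold lab eS; simp [h2, a1]
    refine ⟨hl, ?_⟩
    unfold nx
    rw [hl, if_neg hw]
    unfold nxC eS eW; simp [h2, a1]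
  · refine Or.inr ⟨hD, Or.inl ?_⟩
    have hl : lab (eN (p, q)) = (p, q) := by
      unfold lab eN; simp [h1, a2]
    refine ⟨hl, ?_⟩
    unfold nx
    rw [hl, if_neg hw]
    unfold nxC eN eE; simp [h1, a2]

/-- open tile, even first coordinate: south - east, north - west -/
lemma tj_eo (h1 : e.1 % 2 = 0) (h2 : e.2 % 2 = 1) (hD : e ∉ D) (hw : e ∈ w1) :
    TJ D w1 e (eS e) (eE e) ∧ TJ D w1 e (eN e) (eW e) := by
  obtain ⟨p, q⟩ := e
  simp only at h1 h2
  have a1 : (p + 1) % 2 = 1 := by omega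
  have a2 : (q + 1) % 2 = 0 := by omega
  constructor
  · refine Or.inr ⟨hD, Or.inl ?_⟩
    have hl : lab (eS (p, q)) = (p, q) := by
      unfold lab eS; simp [h2, a1]
    refine ⟨hl, ?_⟩
    unfold nx
    rw [hl, if_pos hw]
    unfold nxO eS eE; simp [h2, a1]
  · refine Or.inr ⟨hD, Or.inl ?_⟩
    have hl : lab (eN (p, q)) = (p, q) := by
      unfold lab eN; simp [h1, a2]
    refine ⟨hl, ?_⟩
    unfold nx
    rw [hl, if_pos hw]
    unfold nxO eN eW; simp [h1, a2]

/-- closed tile, odd first coordinate: west - north, east - south -/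
lemma tj_oc (h1 : e.1 % 2 = 1) (h2 : e.2 % 2 = 0) (hD : e ∉ D) (hw : e ∉ w1) :
    TJ D w1 e (eW e) (eN e) ∧ TJ D w1 e (eE e) (eS e) := by
  obtain ⟨p, q⟩ := e
  simp only at h1 h2
  have a1 : (p + 1) % 2 = 0 := by omega
  have a2 : (q + 1) % 2 = 1 := by omega
  constructor
  · refine Or.inr ⟨hD, Or.inl ?_⟩
    have hl : lab (eW (p, q)) = (p, q) := by
      unfold lab eW; simp [h1, h2]
    refine ⟨hl, ?_⟩
    unfold nx
    rw [hl, if_neg hw]
    unfold nxC eW eN; simp [h1, h2]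
  · refine Or.inr ⟨hD, Or.inl ?_⟩
    have hl : lab (eE (p, q)) = (p, q) := by
      unfold lab eE; simp [a1, a2]
    refine ⟨hl, ?_⟩
    unfold nx
    rw [hl, if_neg hw]
    unfold nxC eE eS; simp [a1, a2]

/-- open tile, odd first coordinate: west - south, east - north -/
lemma tj_oo (h1 : e.1 % 2 = 1) (h2 : e.2 % 2 = 0) (hD : e ∉ D) (hw : e ∈ w1) :
    TJ D w1 e (eW e) (eS e) ∧ TJ D w1 e (eE e) (eN e) := by
  obtain ⟨p, q⟩ := e
  simp only at h1 h2
  have a1 : (p + 1) % 2 = 0 := by omega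
  have a2 : (q + 1) % 2 = 1 := by omega
  constructor
  · refine Or.inr ⟨hD, Or.inl ?_⟩
    have hl : lab (eW (p, q)) = (p, q) := by
      unfold lab eW; simp [h1, h2]
    refine ⟨hl, ?_⟩
    unfold nx
    rw [hl, if_pos hw]
    unfold nxO eW eS; simp [h1, h2]
  · refine Or.inr ⟨hD, Or.inl ?_⟩
    have hl : lab (eE (p, q)) = (p, q) := by
      unfold lab eE; simp [a1, a2]
    refine ⟨hl, ?_⟩
    unfold nx
    rw [hl, if_pos hw]
    unfold nxO eE eN; simp [a1, a2]

end tj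

/-- **Ceiling mark in world 2**: `t` = colour of the riser left of the corner `(true, i)`. If `t` is open, the
image of `f2` is joined to `f1`; if `t` is closed, the image of `f1` is joined to `f2`. -/
theorem mark_dn {h : ℕ} (hb : b.Ok δ σ) (hh : 0 < h) {w : Bool} {D2 : Set (ℤ × ℤ)}
    (hD : ∀ e ∈ D2, cy e < b.H * (2 * h : ℤ))
    (L2 : ∀ x y, lt (x, y) ∈ Lam b (2 * h) M → ¬ InQ b (2 * h) x y →
      (lt (x, y) ∈ w2 ↔ lcol b (2 * h) (colM w M none) x y = true))
    (F : ∀ x y, InQ b (2 * h) x y → 0 ≤ y → ¬ InQ b (2 * h) x (y + 1) →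
      (lt (x, y) ∈ w2 ↔ lcol b (2 * h) (colM w M none) x (y + 1) = true))
    {i : ℕ} (hi : i < b.K) (hm : (true, i) ∈ M) :
    ((colM w M none).u i = true →
      (SG (Lam b (2 * h) M) D2 w2).Reachable (dn (f2 b (2 * h) (true, i))) (f1 b (2 * h) (true, i))) ∧
    ((colM w M none).u i = false →
      (SG (Lam b (2 * h) M) D2 w2).Reachable (dn (f1 b (2 * h) (true, i))) (f2 b (2 * h) (true, i))) := by
  set n : ℤ := 2 * h with hn
  have hn2 : 2 ≤ n := by omega
  have hn0 : 0 < n := by omega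
  set X := b.st i * n with hX
  have hHi : ((b.H : ℤ) + i + 1) * n = ((b.H : ℤ) + i) * n + n := by ring
  have hHi2 : ((b.H : ℤ) + i) * n = b.H * n + i * n := by ring
  have hin : (0 : ℤ) ≤ i * n := by positivity
  have hHn : (0 : ℤ) ≤ b.H * n := by positivity
  set Y := ((b.H : ℤ) + i + 1) * n with hY
  have hXe : X % 2 = 0 := by
    have : X = 2 * (b.st i * h) := by rw [hX, hn]; ring
    omega
  have hYe : Y % 2 = 0 := by
    have : Y = 2 * (((b.H : ℤ) + i + 1) * h) := by rw [hY, hn]; ring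
    omega
  obtain ⟨hT, hA⟩ := mark_tiles_t (M := M) hb hn2 hi
  rw [← hX, ← hY] at hT hA
  have hq : InQ b n X (Y - 1) := by
    have := InQ_mark_t (n := n) hb hn0 hi
    rw [← hHi] at this
    exact this
  -- not in the box
  have nT : ¬ InQ b n X Y := by
    intro hc
    rw [InQ_up hb hn0 (by omega)] at hc
    obtain ⟨-, ⟨g1, -⟩ | ⟨k, hk, g1, g2, g3⟩⟩ := hc
    · omega
    · have hik : i < k := by
        by_contra hc'
        have h8 : ((b.H : ℤ) + k) * n ≤ ((b.H : ℤ) + i) * n := by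
          have : (k : ℤ) ≤ i := by exact_mod_cast not_lt.1 hc'
          nlinarith
        omega
      have h9 := st_mono' hb i k hik hk
      have : b.st i * n + n ≤ b.st k * n := by nlinarith
      omega
  have nA : ¬ InQ b n (X - 1) (Y - 1) := by
    intro hc
    rw [InQ_up hb hn0 (by omega)] at hc
    obtain ⟨-, ⟨g1, -⟩ | ⟨k, hk, g1, g2, g3⟩⟩ := hc
    · omega
    · have hik : k = i := by
        rcases Nat.lt_trichotomy k i with h9 | h9 | h9
        · exfalso
          have : ((b.H : ℤ) + k) * n + n ≤ ((b.H : ℤ) + i) * n := by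
            have : (k : ℤ) + 1 ≤ i := by exact_mod_cast h9
            nlinarith
          omega
        · exact h9
        · exfalso
          have : ((b.H : ℤ) + i) * n + n ≤ ((b.H : ℤ) + k) * n := by
            have : (i : ℤ) + 1 ≤ k := by exact_mod_cast h9
            nlinarith
          omega
      subst hik
      omega
  have hXX : X < b.X * n := by
    have := (hb.st_lo i hi).2
    rw [hX]
    nlinarith
  have d1 : Y / n = b.H + i + 1 := by rw [hY, Int.mul_ediv_cancel _ hn0.ne']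
  have d2 : (Y - 1) / n = b.H + i := by
    apply le_antisymm
    · have := (div_lt_iff' hn0 (a := (b.H : ℤ) + i + 1) (x := Y - 1)).2 (by rw [← hY]; omega)
      omega
    · rw [le_div_iff' hn0]; omega
  -- colours
  have cA : lcol b n (colM w M none) (X - 1) (Y - 1) = (colM w M none).u i := by
    unfold lcol
    rw [if_neg (by omega), if_pos (by omega), d2]
    congr 1
    omega
  have cT : lcol b n (colM w M none) X Y = (colM w M none).u (i + 1) := by
    unfold lcol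
    rw [if_neg (by omega), if_pos (by omega), d1]
    congr 1
    omega
  have cc : (colM w M none).u (i + 1) = !(colM w M none).u i := by
    unfold colM
    simp only
    have : M.filter (fun c => c.1 = true ∧ c.2 < i + 1) =
        insert (true, i) (M.filter fun c => c.1 = true ∧ c.2 < i) := by
      ext ⟨s, k⟩
      simp only [mem_filter, mem_insert, Prod.mk.injEq]
      constructor
      · rintro ⟨g1, g2, g3⟩
        by_cases g4 : k = i
        · exact Or.inl ⟨g2, g4⟩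
        · exact Or.inr ⟨g1, g2, by omega⟩
      · rintro (⟨g1, g2⟩ | ⟨g1, g2, g3⟩)
        · subst g1; subst g2; exact ⟨hm, rfl, by omega⟩
        · exact ⟨g1, g2, by omega⟩
    rw [this, card_insert_of_notMem (by simp)]
    have hpar : ∀ k : ℕ, par (k + 1) = !par k := by
      intro k
      unfold par
      rcases Nat.mod_two_eq_zero_or_one k with g | g
      · have : (k + 1) % 2 = 1 := by omega
        rw [g, this]; rfl
      · have : (k + 1) % 2 = 0 := by omega
        rw [g, this]; rfl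
    rw [hpar]
    cases w <;> cases par _ <;> rfl
  -- states
  have sA := L2 (X - 1) (Y - 1) (LamT_sub hA) nA
  have sT := L2 X Y (LamT_sub hT) nT
  have sB := F X (Y - 1) hq (by omega) (by rw [sub_add_cancel]; exact nT)
  rw [sub_add_cancel] at sB
  rw [cA] at sA
  rw [cT, cc] at sT sB
  -- not deleted
  have nd : ∀ x y : ℤ, b.H * n ≤ y → lt (x, y) ∉ D2 := by
    intro x y hy hc
    have := hD _ hc
    rw [cy_lt] at this
    simp only at this
    omega
  have mB : lt (X, Y - 1) ∈ Lam b n M := mem_Lam'.2 (Or.inl hq)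
  have e1 : (lt (X - 1, Y - 1)).1 % 2 = 0 := by unfold lt; simp only; omega
  have e2 : (lt (X - 1, Y - 1)).2 % 2 = 1 := by unfold lt; simp only; omega
  have e3 : (lt (X, Y - 1)).1 % 2 = 1 := by unfold lt; simp only; omega
  have e4 : (lt (X, Y - 1)).2 % 2 = 0 := by unfold lt; simp only; omega
  have e5 : (lt (X, Y)).1 % 2 = 0 := by unfold lt; simp only; omega
  have e6 : (lt (X, Y)).2 % 2 = 1 := by unfold lt; simp only; omega
  have hf1 : f1 b n (true, i) = eW (lt (X, Y)) := by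
    rw [f1_eq, dgt_t]; simp only [sub_add_cancel]; rfl
  have hf2 : f2 b n (true, i) = eN (lt (X - 1, Y - 1)) := by rw [f2_t, dgt_t]
  have k1 : dn (f2 b n (true, i)) = eS (lt (X - 1, Y - 1)) := by
    rw [hf2]; unfold dn eN eS; simp
  have k2 : dn (f1 b n (true, i)) = eE (lt (X - 1, Y - 1)) := by
    rw [hf1]; unfold dn eW eE lt
    exact Prod.ext (by simp only; ring) (by simp only; ring)
  have k3 : eE (lt (X - 1, Y - 1)) = eW (lt (X, Y - 1)) := by
    unfold eW eE lt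
    exact Prod.ext (by simp only; ring) (by simp only; ring)
  have k4 : eN (lt (X, Y - 1)) = eS (lt (X, Y)) := by
    unfold eN eS lt
    exact Prod.ext (by simp only; ring) (by simp only; ring)
  constructor
  · intro hu
    rw [hu] at sA sT sB
    have a1 := (tj_eo (D := D2) e1 e2 (nd _ _ (by omega)) (sA.2 rfl)).1
    have a2 := (tj_oc (D := D2) e3 e4 (nd _ _ (by omega)) (fun hc => by simpa using sB.1 hc)).1
    have a3 := (tj_ec (D := D2) e5 e6 (nd _ _ (by omega)) (fun hc => by simpa using sT.1 hc)).1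
    have r1 : (SG (Lam b n M) D2 w2).Adj (eS (lt (X - 1, Y - 1))) (eW (lt (X, Y - 1))) := by
      rw [← k3]; exact ⟨_, LamT_sub hA, a1⟩
    have r2 : (SG (Lam b n M) D2 w2).Adj (eW (lt (X, Y - 1))) (eS (lt (X, Y))) := by
      rw [← k4]; exact ⟨_, mB, a2⟩
    have r3 : (SG (Lam b n M) D2 w2).Adj (eS (lt (X, Y))) (eW (lt (X, Y))) := ⟨_, LamT_sub hT, a3⟩
    rw [k1, hf1]
    exact r1.reachable.trans (r2.reachable.trans r3.reachable)
  · intro hu
    rw [hu] at sA
    have a1 := (tj_ec (D := D2) e1 e2 (nd _ _ (by omega)) (fun hc => by simpa using sA.1 hc)).2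
    have r1 : (SG (Lam b n M) D2 w2).Adj (eN (lt (X - 1, Y - 1))) (eE (lt (X - 1, Y - 1))) :=
      ⟨_, LamT_sub hA, a1⟩
    rw [k2, hf2]
    exact r1.symm.reachable

end Pool.Agent.H7.W
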