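import Mathlib
import Pool.Agent.H7.W.XBank
import Pool.Agent.H80.W.XPBlk

set_option autoImplicit false
open Finset

/-! # XP, numbers: `XPH` and `XPG` from `BN`, labels of the half circuit

`BN.xph` : 80's numerical hypotheses for `a0 = x1 - S`, `a1 = x1 + S`, `y1 = S`.
`BN.xpg` : the half disc. `BN.an_sub` : the labels of the half circuit are images of outside labels.
`blk_Er` : they have different coins. -/

namespace Pool.Agent.H7.W

open Pool.Agent.H61.W Pool.Agent.H6.W Pool.Agent.H58.W Pool.Agent.H21.W Pool.Agent.H71.W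
open Pool.Agent.H70.W
open Pool.Agent.H50.W
open Pool.Agent.H80.W
open Pool.Agent.H99.NC (BR)
open Pool.Agent.H19.W (cx cy lt_cc cx_lt cy_lt cx_up cy_up cx_dn cy_dn tile_ext odd_dn odd_up)
open Pool.Agent.H13.W (dn)
open Pool.Agent.H33.Q1 (lt lt_odd lt_inj)

variable {b : JBox} {δ σ : ℝ} {h : ℕ} {x1 S ρ Mh B : ℤ} {v : ℤ × ℤ} {M : Finset (Bool × ℕ)} {bse o : Bool}

/-- **80's numerical hypotheses.** -/
theorem BN.xph (N : BN b (2 * h) x1 S ρ Mh B) (hb : b.Ok δ σ) (hh : 0 < h)
    (ht : ((b.τ : ℤ) + nP b) * (2 * h) < S) (h1 : x1 - S < v.1) (h2 : v.1 < x1 + S) (h3 : v.2 < S)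
    (h0 : 0 ≤ v.2) (hR : InR b (2 * h) v.1 v.2) : XPH δ σ b h x1 (x1 - S) (x1 + S) S v := by
  have hn : (0 : ℤ) < 2 * h := by positivity
  have hM : (0 : ℤ) < b.M := by exact_mod_cast hb.M0
  have e1 := N.L
  have e2 := N.R
  have e3 := N.SH
  have e4 := N.ρS
  have e5 := N.ρM
  have e6 := N.BM
  have e7 := N.S2
  have t1 : (0 : ℤ) ≤ b.τ * (2 * h) := by positivity
  have t2 : (0 : ℤ) ≤ b.m * (2 * h) := by positivity
  refine ⟨hb, hh, ?_, ?_, by linarith, by linarith, by linarith, h1, h2, by linarith, ht, by linarith,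
    h3, ?_⟩
  · have : ((b.τ : ℤ) + nP b) * (2 * h) < b.H * (2 * h) := by linarith
    exact lt_of_mul_lt_mul_right this hn.le
  · have h4 := N.P
    have h5 := X_eq hb
    rw [h5] at h4
    have := le_of_mul_le_mul_right h4 hM
    exact_mod_cast this
  · intro i hi _
    have hv : v.1 < 0 := by linarith
    have h5 := hR.2
    rw [chn_none hb.M0 hn hv] at h5
    have h6 : bkh b (2 * h) v.1 ≤ v.2 := by
      by_contra hc
      apply h5
      refine ⟨?_, not_le.1 hc⟩
      have : 0 ≤ bkh b (2 * h) v.1 := by unfold bkh; positivity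
      linarith
    refine le_trans ?_ h6
    unfold bkh
    apply mul_le_mul_of_nonneg_right _ hn.le
    have h7 := ((pin_eq hb.M0 hn hv (i := pin b (2 * h) v.1)).1 rfl).1
    have : (i : ℤ) ≤ pin b (2 * h) v.1 := by
      by_contra hc
      have h8 : (pin b (2 * h) v.1 : ℤ) + 1 ≤ i := by omega
      have h9 : ((pin b (2 * h) v.1 : ℤ) + 1) * b.M * (2 * h) ≤ i * b.M * (2 * h) := by gcongr
      linarith
    linarith

/-- tiles of the box around the foot -/
lemma BR_cc {n : ℤ} (hx : x1 % 2 = 0) (hn : n % 2 = 0) {e : ℤ × ℤ} (he : e ∈ BR (zb b n x1) B) :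
    (x1 - 2 * B - 1 ≤ cx e ∧ cx e ≤ x1 + 2 * B) ∧
      (b.τ * n - 2 * B - 1 ≤ cy e ∧ cy e ≤ b.τ * n + 2 * B) := by
  have ho := (mem_BR.1 he).2.2
  have e1 : e = lt (cx e, cy e) := (lt_cc ho).symm
  rw [e1, BR_zb hx hn] at he
  omega

/-- rows of the room above `P` -/
lemma Er_row (hb : b.Ok δ σ) {n : ℤ} (hn : 2 ≤ n) {e : ℤ × ℤ} (he : e ∈ Er b n) : 2 ≤ cy e := by
  have e1 : e = lt (cx e, cy e) := (lt_cc (Er_odd he)).symm
  rw [e1, mem_Er] at he
  have h1 := (bkh_bd hb.M0 (by omega) he.1.1 he.1.2).1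
  have h2 : (1 : ℤ) ≤ b.τ := by exact_mod_cast hb.τ0
  have h3 : n ≤ b.τ * n := by nlinarith
  omega

/-- **The half disc.** -/
theorem BN.xpg (N : BN b (2 * h) x1 S ρ Mh B) (U : XPH δ σ b h x1 (x1 - S) (x1 + S) S v) :
    XPG b h M bse o x1 (x1 - S) (x1 + S) S (chV 1) (Er b (2 * h)) (zb b (2 * h) x1) ρ Mh B
      (b.m * (2 * h) + 1) (b.τ * (2 * h)) (x1 - 2 * B - 4) (x1 + 2 * B + 4) (b.τ * (2 * h) + 2 * B) := by
  have hb := U.ok
  have hn := U.hn
  have hh : (1 : ℤ) ≤ h := by exact_mod_cast U.hh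
  have hne : (2 * (h : ℤ)) % 2 = 0 := by omega
  have e1 := N.L
  have e2 := N.R
  have e3 := N.SH
  have e4 := N.ρS
  have e5 := N.ρM
  have e6 := N.BM
  have e7 := N.S2
  have e8 := N.T
  have t1 := U.tau0
  have t2 : (0 : ℤ) ≤ b.m * (2 * h) := by positivity
  have hR := bank_prm hb hn hne N.G
  refine ⟨hR.roomW (Or.inl rfl) (Or.inr rfl), ?_, by linarith, e5, by linarith, by linarith,
    by linarith, by linarith, fun e he => Er_row hb (by omega) he, ?_, ?_, by linarith, by linarith,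
    by linarith⟩
  · intro ω hω
    refine bank_lay hb hn hne N.G (by linarith) (by linarith) ?_ ?_
    · intro x y hy
      rw [mem_XBD (lt_odd _), cy_lt]
      intro hc
      omega
    · intro x y h1 h2 h3 h4
      have hbd := bkh_bd hb.M0 hn h1 h2
      have hQ : InQ b (2 * h) x y := by
        have := U.amX
        exact U.band (by linarith) h2 (by linarith) (by linarith)
      have hB : lt (x, y) ∈ b.B h := (mem_B U.hh).2 ⟨lt_odd _, by rwa [cx_lt, cy_lt]⟩
      have hC : ¬ CrR b (2 * h) (lt (x, y)) := by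
        rintro ⟨g1, g2⟩
        rw [cy_lt] at g1
        rw [cx_lt, cy_lt] at g2
        have := U.ceil hQ g1 g2
        linarith
      have hi : ∃ i < b.m, cpl b (2 * h) (lt (x, y)) = some i := by
        refine ⟨pin b (2 * h) x, pin_lt hb.M0 hn h1 h2, ?_⟩
        unfold cpl
        rw [cx_lt, cy_lt]
        rw [chn_col hb.M0 hn h2]
        have : (0 : ℤ) ≤ bkh b (2 * h) x := by unfold bkh; positivity
        constructor <;> linarith
      have := st_PB U (M := M) (bse := bse) (o := o) hω hB hi hC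
      rw [this, cx_lt, cy_lt]
      by_cases hx : x < x1
      · have : 0 < y := by linarith
        simp [hx, this, Xor]
      · simp [hx, Xor]
  · rintro e ⟨⟨g1, g2⟩, g3, g4⟩ ho
    have h5 : e = lt (cx e, cy e) := (lt_cc ho).symm
    rw [h5, BR_zb N.G.ev hne]
    omega
  · intro e he
    have := BR_cc N.G.ev hne he
    constructor <;> constructor <;> omega

/-- the labels of the room near the bank of `P` have their own coins -/
lemma cpl_Er (hb : b.Ok δ σ) {n : ℤ} (hn : 0 < n) {e : ℤ × ℤ} (he : e ∈ Er b n) : cpl b n e = none := by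
  have e1 : e = lt (cx e, cy e) := (lt_cc (Er_odd he)).symm
  rw [e1, mem_Er] at he
  unfold cpl
  rw [chn_none hb.M0 hn he.1.2]
  omega

lemma Er_B (hb : b.Ok δ σ) (hh : 0 < h) (hP : (b.m : ℤ) * b.M ≤ b.X) {e : ℤ × ℤ}
    (he : e ∈ Er b (2 * h)) : e ∈ b.B h := by
  have hn : (0 : ℤ) < 2 * h := by positivity
  have e1 : e = lt (cx e, cy e) := (lt_cc (Er_odd he)).symm
  rw [mem_B hh]
  refine ⟨Er_odd he, ?_⟩
  rw [e1] at he
  exact (Er_InR hb hn hP he).1

/-- **The labels of the half circuit are images of outside labels.** -/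
theorem BN.an_sub (N : BN b (2 * h) x1 S ρ Mh B) (U : XPH δ σ b h x1 (x1 - S) (x1 + S) S v) :
    Er b (2 * h) ∩ An (zb b (2 * h) x1) ρ Mh ⊆ XO2 b h x1 (x1 - S) (x1 + S) S v := by
  classical
  have hb := U.ok
  have hn := U.hn
  have hh : (1 : ℤ) ≤ h := by exact_mod_cast U.hh
  have hne : (2 * (h : ℤ)) % 2 = 0 := by omega
  have e4 := N.ρS
  have e7 := N.S2
  have t1 := U.tau0
  have t2 : (0 : ℤ) ≤ b.m * (2 * h) := by positivity
  intro e he
  rw [mem_inter, mem_An] at he
  obtain ⟨hE, hA⟩ := he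
  have ho := Er_odd hE
  have hB := Er_B hb U.hh N.P hE
  have hc := cpl_Er hb hn hE
  have hrow := Er_row hb (by omega) hE
  have e1 : e = lt (cx e, cy e) := (lt_cc ho).symm
  have hE' := hE
  rw [e1, mem_Er] at hE'
  obtain ⟨⟨k1, k2⟩, ⟨k3, k4⟩, k5⟩ := hE'
  have hxx := N.SH
  -- not in the block
  have hnb : ¬ ((x1 - S ≤ cx e ∧ cx e ≤ x1 + S) ∧ (1 ≤ cy e ∧ cy e ≤ S)) := by
    intro hc'
    have : e ∈ BR (zb b (2 * h) x1) (ρ - 1) := by
      rw [e1, BR_zb N.G.ev hne]
      omega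
    rw [mem_BR] at this
    omega
  have vy := U.vy
  have a0v := U.a0v
  have va1 := U.va1
  have hX := U.amX
  have hL := N.L
  have hBS : S ≤ B := by linarith [N.ρM, N.BM]
  -- plates
  have hpl : ∀ (y : ℤ), cy e ≤ y → ∀ i, lpl b (2 * h) (x1 - S) (lt (cx e, y)) = some i →
      (cx e < x1 - S ∧ y = cy e) := by
    intro y hy i hi
    rw [lpl_some hb.M0 hn, cx_lt, cy_lt] at hi
    obtain ⟨g1, g2, g3⟩ := hi
    have h5 := (pin_eq hb.M0 hn k2).2 g1
    have h6 : bkh b (2 * h) (cx e) = ((b.τ : ℤ) + i) * (2 * h) := by unfold bkh; rw [h5]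
    rw [h6] at k5
    rcases g3 with g3 | ⟨g3, g4⟩
    · omega
    · exact ⟨g3, by omega⟩
  -- the tile above
  have hup : Pool.Agent.H13.W.up e = lt (cx e, cy e + 1) := by
    refine tile_ext (odd_up.2 ho) (lt_odd _) ?_ ?_
    · rw [cx_up, cx_lt]
    · rw [cy_up, cy_lt]
  have hupQ : InQ b (2 * h) (cx e) (cy e + 1) := by
    refine U.band (by linarith) k2 (by linarith) (by linarith)
  have hupB : lt (cx e, cy e + 1) ∈ b.B h :=
    (mem_B U.hh).2 ⟨lt_odd _, by rwa [cx_lt, cy_lt]⟩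
  have hdn : dn (lt (cx e, cy e + 1)) = e := by
    rw [← hup]
    unfold dn Pool.Agent.H13.W.up
    exact Prod.ext (by simp) (by simp)
  unfold XO2
  rw [mem_image]
  -- image of the tile above
  have key1 : lt (cx e, cy e + 1) ∈ XS (x1 - S) (x1 + S) S v.2 →
      ¬ (cy e + 1 = v.2 ∧ v.1 ≤ cx e) →
      ∃ a ∈ XO1 b h x1 (x1 - S) (x1 + S) S v, mvd (XS (x1 - S) (x1 + S) S v.2) a = e := by
    intro hS hD
    refine ⟨lt (cx e, cy e + 1), ?_, by rw [mvd_in hS, hdn]⟩
    unfold XO1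
    rw [mem_filter]
    refine ⟨hupB, ?_, ?_, ?_, ?_⟩
    · rintro ⟨i, -, hi⟩
      have := (hpl _ (by linarith) i hi).2
      omega
    · rintro ⟨q1, q2⟩
      rw [cx_lt] at q1
      rw [cy_lt] at q2
      simp only at q1 q2
      apply hnb
      omega
    · rw [cx_lt, cy_lt]
      exact hD
    · rw [cx_lt, cy_lt]
      simp only
      omega
  by_cases c1 : cx e < x1 - S
  · apply key1
    · left
      rw [cx_lt, cy_lt]
      simp only
      omega
    · omega
  by_cases c2 : x1 + S < cx e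
  · by_cases c3 : v.2 ≤ cy e
    · apply key1
      · right; left
        rw [cx_lt, cy_lt]
        simp only
        omega
      · omega
    · have hS : e ∉ XS (x1 - S) (x1 + S) S v.2 := by
        rintro (q | q | q)
        · omega
        · omega
        · omega
      refine ⟨e, ?_, mvd_out hS⟩
      unfold XO1
      rw [mem_filter]
      refine ⟨hB, ?_, ?_, ?_, ?_⟩
      · rintro ⟨i, -, hi⟩
        rw [e1] at hi
        have := (hpl _ le_rfl i hi).1
        omega
      · rintro ⟨q1, q2⟩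
        omega
      · omega
      · omega
  · apply key1
    · right; right
      rw [cx_lt, cy_lt]
      simp only
      omega
    · omega

/-- different labels of the room near the bank have different coins -/
lemma blk_Er (hb : b.Ok δ σ) {n : ℤ} (hn : 0 < n) {e e' : ℤ × ℤ} (he : e ∈ Er b n) (he' : e' ∈ Er b n)
    (h : blk (cpl b n) e = blk (cpl b n) e') : e = e' := by
  rw [blk_none (cpl_Er hb hn he), blk_none (cpl_Er hb hn he')] at h
  exact Sum.inl_injective h

end Pool.Agent.H7.W
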