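import Mathlib
import Pool.Agent.H7.W.XNum
import Pool.Agent.H80.W.XPQ

set_option autoImplicit false
open Finset

/-! # XP, scale form

`cor_box`, `cor_box_ne` : the corners for one fine box. `XScl` : all numbers at a moving end `v` near the bank. -/

namespace Pool.Agent.H7.W

open Pool.Agent.H61.W Pool.Agent.H6.W Pool.Agent.H58.W Pool.Agent.H21.W Pool.Agent.H71.W
open Pool.Agent.H70.W
open Pool.Agent.H50.W
open Pool.Agent.H80.W
open Pool.Agent.H87.Fld (Rb ScB EvB)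
open Pool.Agent.H99.NC (BR)
open Pool.Agent.Q1.M4 (lat)

variable {b : JBox} {δ σ : ℝ} {h : ℕ} {x1 S ρ Mh B : ℤ} {v : ℤ × ℤ} {M : Finset (Bool × ℕ)} {bse o : Bool}

/-- the corner of `c` exists in fine boxes -/
lemma cor_box (c : Bool × ℝ) : ∃ δ0 > 0, ∀ (b : JBox) (δ σ : ℝ), 0 < δ → δ ≤ δ0 → b.Ok δ σ →
    (cor b c).2 < b.K := by
  refine ⟨min 1 (1 / (|c.2| + 1)), lt_min one_pos (by positivity), fun b δ σ h0 h1 hb => ?_⟩
  have h2 : δ ≤ 1 := h1.trans (min_le_left _ _)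
  have h3 : δ ≤ 1 / (|c.2| + 1) := h1.trans (min_le_right _ _)
  have h4 : δ * (|c.2| + 1) ≤ 1 := by
    rw [le_div_iff₀ (by positivity)] at h3
    exact h3
  refine (cor_ok hb ?_).1
  calc δ * (|c.2| + δ) ≤ δ * (|c.2| + 1) := mul_le_mul_of_nonneg_left (by linarith) h0.le
    _ ≤ 1 := h4

/-- different boundary points have different corners in fine boxes -/
lemma cor_box_ne {c c' : Bool × ℝ} (hc : c ≠ c') : ∃ δ0 > 0, ∀ (b : JBox) (δ σ : ℝ), 0 < δ → δ ≤ δ0 →
    b.Ok δ σ → cor b c ≠ cor b c' := by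
  have key : ∀ c c' : Bool × ℝ, c.2 < c'.2 → ∃ δ0 > 0, ∀ (b : JBox) (δ σ : ℝ), 0 < δ → δ ≤ δ0 →
      b.Ok δ σ → cor b c ≠ cor b c' := by
    intro c c' h
    refine ⟨min (min 1 (1 / (|c.2| + 1))) (min (1 / (|c'.2| + 1)) ((c'.2 - c.2) / 2)), ?_, ?_⟩
    · refine lt_min (lt_min one_pos (by positivity)) (lt_min (by positivity) (by linarith))
    · intro b δ σ h0 h1 hb he
      have a1 : δ ≤ 1 := h1.trans ((min_le_left _ _).trans (min_le_left _ _))
      have a2 : δ ≤ 1 / (|c.2| + 1) := h1.trans ((min_le_left _ _).trans (min_le_right _ _))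
      have a3 : δ ≤ 1 / (|c'.2| + 1) := h1.trans ((min_le_right _ _).trans (min_le_left _ _))
      have a4 : δ ≤ (c'.2 - c.2) / 2 := h1.trans ((min_le_right _ _).trans (min_le_right _ _))
      rw [le_div_iff₀ (by positivity)] at a2 a3
      have g1 := cor_ok hb (c := c) (by
        calc δ * (|c.2| + δ) ≤ δ * (|c.2| + 1) := mul_le_mul_of_nonneg_left (by linarith) h0.le
          _ ≤ 1 := a2)
      have g2 := cor_ok hb (c := c') (by
        calc δ * (|c'.2| + δ) ≤ δ * (|c'.2| + 1) := mul_le_mul_of_nonneg_left (by linarith) h0.le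
          _ ≤ 1 := a3)
      have hH := H_pos hb
      rw [he] at g1
      have h5 : c'.2 * b.H < (c.2 + 2 * δ) * b.H := lt_of_le_of_lt g2.2.1 g1.2.2
      have h6 : (c.2 + 2 * δ) * b.H ≤ c'.2 * b.H := mul_le_mul_of_nonneg_right (by linarith) hH.le
      linarith
  rcases lt_trichotomy c.2 c'.2 with h | h | h
  · exact key c c' h
  · refine ⟨1, one_pos, fun b δ σ _ _ _ he => hc ?_⟩
    have h2 := congrArg Prod.fst he
    exact Prod.ext h2 h
  · obtain ⟨δ0, h0, h1⟩ := key c' c h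
    exact ⟨δ0, h0, fun b δ σ g1 g2 g3 he => h1 b δ σ g1 g2 g3 he.symm⟩

/-- **All numbers at a moving end near the bank.** -/
theorem xscl {x s : ℝ} (hs : 0 < s) (hb : b.Ok δ σ) (hδ : 8 * δ ≤ s) (hh : 0 < h)
    (N : BN b (2 * h) (gp b (2 * h) x) S ρ Mh B) (hS : 2 * s * Rb b h ≤ S)
    (hv : lat v / (Rb b h : ℂ) ∈ Metric.closedBall (x : ℂ) s) (hU : lat v / (Rb b h : ℂ) ∈ Ur b)
    (h0 : 0 < v.2) : XPH δ σ b h (gp b (2 * h) x) (gp b (2 * h) x - S) (gp b (2 * h) x + S) S v ∧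
      ((gp b (2 * h) x - S : ℤ) : ℝ) + s / 2 * Rb b h ≤ v.1 := by
  set R := Rb b h with hR
  have hH := H_pos hb
  have hd := d_pos hb
  have hh' : (0 : ℝ) < h := by exact_mod_cast hh
  have eR : ((b.H : ℝ) * (2 * h)) = R := by rw [hR]; unfold Rb; ring
  have hR0 : 0 < R := by rw [← eR]; positivity
  have hsR : 0 < s * R := mul_pos hs hR0
  have hδR : δ * R ≤ s / 8 * R := mul_le_mul_of_nonneg_right (by linarith) hR0.le
  obtain ⟨g1, g2⟩ := gp_real hb (h := h) x
  rw [← hR] at g1 g2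
  obtain ⟨n1, n2⟩ := Setup.near_of_ball hR0 hv
  rw [Complex.ofReal_re, abs_le] at n1
  rw [Complex.ofReal_im, abs_le] at n2
  have hth := thin hb
  have ht : ((b.τ : ℤ) + nP b) * (2 * h) < S := by
    have : ((b.τ : ℝ) + nP b) * (2 * h) < S := by
      have h1 : ((b.τ : ℝ) + nP b) * (2 * h) ≤ (2 * δ * b.H) * (2 * h) :=
        mul_le_mul_of_nonneg_right (by linarith) (by positivity)
      have h2 : (2 * δ * b.H) * (2 * h) = 2 * (δ * R) := by rw [← eR]; ring
      linarith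
    exact_mod_cast this
  have hInR : InR b (2 * h) v.1 v.2 := by
    refine InR_of_mem hb hh ?_
    have : ((2 * h * b.H : ℝ) : ℂ) = (R : ℂ) := by
      rw [← eR]; push_cast; ring
    rw [this]
    exact hU
  refine ⟨N.xph hb hh ht ?_ ?_ ?_ h0.le hInR, ?_⟩
  · have : (gp b (2 * h) x : ℝ) - S < v.1 := by linarith [n1.1]
    exact_mod_cast this
  · have : (v.1 : ℝ) < gp b (2 * h) x + S := by linarith [n1.2]
    exact_mod_cast this
  · have : (v.2 : ℝ) < S := by linarith [n2.2]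
    exact_mod_cast this
  · push_cast
    linarith [n1.1]

/-- probability of the half circuit in the world `XB` -/
lemma BN.half (N : BN b (2 * h) x1 S ρ Mh B) (U : XPH δ σ b h x1 (x1 - S) (x1 + S) S v) :
    Er b (2 * h) ∩ An (zb b (2 * h) x1) ρ Mh ⊆ (XB b h M bse o x1).E :=
  (N.an_sub U).trans (U.lm (M := M) (bse := bse) (o := o)).s2

end Pool.Agent.H7.W
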