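import Mathlib
import Pool.Agent.H16.W.JMir
import Pool.Agent.H87.W.Fields
import Pool.Agent.H71.W.JGeo
import Pool.Agent.H7.W.XScale

set_option autoImplicit false
open Finset

/-! # Reflection of scale pairs

`conj_Ur` : the macroscopic room is symmetric. `scb_mir` : a scale pair at `z0` for the error `e` gives a scale
pair at `conj z0` for the error `e'` with `e' b h v ≤ e b h (rp v)`. `xq_mir` : XP for the bank `false`. -/

namespace Pool.Agent.H7.W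

open Pool.Agent.H61.W Pool.Agent.H6.W Pool.Agent.H71.W Pool.Agent.H50.W
open Pool.Agent.H87.Fld (Rb ScB EvB Rb_pos lat_div_re lat_div_im)
open Pool.Agent.H16.W (rp rp_rp rm rm_rm rm_inj rp_mem_Q chn_rp PJ_GX PJ_GP PJ_GY)
open Pool.Agent.Q1.M4 (lat)
open Metric Set Filter Topology

variable {σ δ : ℝ} {b : JBox}

/-- cells of the room -/
def RmC (b : JBox) (p : ℤ × ℤ) : Prop := p ∈ b.Q ∧ chn 0 b.M b.τ p = none

lemma RmC_rp (p : ℤ × ℤ) : RmC b (rp p) ↔ RmC b p := by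
  unfold RmC
  rw [rp_mem_Q, chn_rp]

/-- the room contains the conjugates of its points -/
lemma conj_sub {z : ℂ} (hz : z ∈ Ur b) : RmC b (⌊z.re * b.H⌋, ⌊-z.im * b.H⌋) := by
  have hop : IsOpen (Ur b) := isOpen_interior
  have hsub : ∀ w ∈ Ur b, RmC b (⌊w.re * b.H⌋, ⌊w.im * b.H⌋) := by
    intro w hw
    have h1 := interior_subset (s := {z : ℂ | (⌊z.re * b.H⌋, ⌊z.im * b.H⌋) ∈ b.Q ∧
      chn 0 b.M b.τ (⌊z.re * b.H⌋, ⌊z.im * b.H⌋) = none}) hw
    exact h1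
  -- a point slightly below
  obtain ⟨ε, hε, hball⟩ := Metric.isOpen_iff.1 hop z hz
  have hfl : ⌊-z.im * b.H⌋ = -1 - (⌈z.im * b.H⌉ - 1) := by
    rw [neg_mul, Int.floor_neg]
    ring
  have e1 : ((⌊z.re * b.H⌋, ⌊-z.im * b.H⌋) : ℤ × ℤ) = rp (⌊z.re * b.H⌋, ⌈z.im * b.H⌉ - 1) := by
    unfold rp
    rw [hfl]
  rw [e1, RmC_rp]
  rcases Nat.eq_zero_or_pos b.H with hH | hH
  · have h1 := hsub z hz
    rw [hH] at h1 ⊢
    simp only [Nat.cast_zero, mul_zero, Int.floor_zero, Int.ceil_zero, zero_sub] at h1 ⊢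
    have e2 : ((0, -1) : ℤ × ℤ) = rp (0, 0) := by unfold rp; simp
    rw [e2, RmC_rp]
    exact h1
  have hH' : (0 : ℝ) < b.H := by exact_mod_cast hH
  -- the gap to the next grid line below
  have h1 := Int.ceil_lt_add_one (z.im * b.H)
  set g : ℝ := z.im * b.H - (⌈z.im * b.H⌉ - 1) with hg
  have hg0 : 0 < g := by rw [hg]; linarith
  have hg1 : g ≤ 1 := by rw [hg]; linarith [Int.le_ceil (z.im * b.H)]
  set t : ℝ := min (ε / 2) (g / (2 * b.H)) with ht
  have ht0 : 0 < t := lt_min (by positivity) (by positivity)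
  have ht1 : t ≤ ε / 2 := min_le_left _ _
  have ht2 : t ≤ g / (2 * b.H) := min_le_right _ _
  have ht3 : t * b.H ≤ g / 2 := by
    rw [le_div_iff₀ (by positivity)] at ht2
    linarith
  have hw : (z - (t : ℂ) * Complex.I) ∈ Ur b := by
    apply hball
    rw [mem_ball, Complex.dist_eq]
    have e2 : z - (t : ℂ) * Complex.I - z = -((t : ℂ) * Complex.I) := by ring
    rw [e2, norm_neg, norm_mul, Complex.norm_I, mul_one, Complex.norm_real, Real.norm_of_nonneg ht0.le]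
    linarith
  have h2 := hsub _ hw
  have e3 : (z - (t : ℂ) * Complex.I).re = z.re := by simp
  have e4 : (z - (t : ℂ) * Complex.I).im = z.im - t := by simp
  rw [e3, e4] at h2
  have e5 : ⌊(z.im - t) * b.H⌋ = ⌈z.im * b.H⌉ - 1 := by
    rw [Int.floor_eq_iff]
    push_cast
    have : 0 < t * b.H := by positivity
    constructor
    · rw [sub_mul]; rw [hg] at ht3; linarith
    · rw [sub_mul]; linarith [Int.le_ceil (z.im * b.H)]
  rw [e5] at h2
  exact h2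

/-- **The room is symmetric.** -/
theorem conj_Ur {z : ℂ} (hz : z ∈ Ur b) : (starRingEnd ℂ) z ∈ Ur b := by
  have hop : IsOpen ((starRingEnd ℂ) ⁻¹' Ur b) := by
    have hU : IsOpen (Ur b) := isOpen_interior
    exact hU.preimage Complex.continuous_conj
  have h1 : (starRingEnd ℂ) ⁻¹' Ur b ⊆ {z : ℂ | (⌊z.re * b.H⌋, ⌊z.im * b.H⌋) ∈ b.Q ∧
      chn 0 b.M b.τ (⌊z.re * b.H⌋, ⌊z.im * b.H⌋) = none} := by
    intro w hw
    have h2 := conj_sub (z := (starRingEnd ℂ) w) hw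
    rw [Complex.conj_re, Complex.conj_im, neg_neg] at h2
    exact h2
  have h3 : (starRingEnd ℂ) ⁻¹' Ur b ⊆ Ur b := interior_maximal h1 hop
  apply h3
  show (starRingEnd ℂ) ((starRingEnd ℂ) z) ∈ Ur b
  rw [Complex.conj_conj]
  exact hz

lemma lat_rp (v : ℤ × ℤ) (R : ℝ) :
    lat (rp v) / (R : ℂ) = (starRingEnd ℂ) (lat v / (R : ℂ)) - ((1 / R : ℝ) : ℂ) * Complex.I := by
  apply Complex.ext
  · rw [lat_div_re, Complex.sub_re, Complex.conj_re, lat_div_re]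
    unfold rp
    simp
  · rw [lat_div_im, Complex.sub_im, Complex.conj_im, lat_div_im]
    unfold rp
    simp only [Complex.mul_im, Complex.ofReal_re, Complex.ofReal_im, Complex.I_re, Complex.I_im]
    push_cast
    ring

lemma dist_lat_rp {R : ℝ} (hR : 0 < R) (v : ℤ × ℤ) :
    dist (lat (rp v) / (R : ℂ)) ((starRingEnd ℂ) (lat v / (R : ℂ))) = 1 / R := by
  rw [lat_rp, Complex.dist_eq, sub_sub_cancel_left, norm_neg, norm_mul, Complex.norm_I, mul_one,
    Complex.norm_real, Real.norm_of_nonneg (by positivity)]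

/-- **Reflection of scale pairs.** -/
theorem scb_mir {z0 : ℂ} {Z Z' : Set ℂ} {e e' : JBox → ℕ → ℤ × ℤ → ℝ} (H : ScB σ z0 Z e)
    {r1 : ℝ} (hr1 : 0 < r1)
    (hE : ∀ s, 0 < s → s < r1 → ∃ δ1 > 0, ∀ (b : JBox) (δ : ℝ), 0 < δ → δ ≤ δ1 → b.Ok δ σ →
      ∃ h0 : ℕ, ∀ h : ℕ, h0 ≤ h → ∀ v : ℤ × ℤ, lat v / (Rb b h : ℂ) ∈ Ur b →
      lat (rp v) / (Rb b h : ℂ) ∈ Ur b →
      lat v / (Rb b h : ℂ) ∈ closedBall ((starRingEnd ℂ) z0) s → lat v / (Rb b h : ℂ) ∈ Z' →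
      lat (rp v) / (Rb b h : ℂ) ∈ Z ∧ e' b h v ≤ e b h (rp v)) :
    ScB σ ((starRingEnd ℂ) z0) Z' e' := by
  obtain ⟨C, c, r0, hc, hr0, H⟩ := H
  refine ⟨|C|, c, min (r0 / 2) r1, hc, lt_min (by positivity) hr1, fun s hs hsr η hη => ?_⟩
  have hs1 : s < r0 / 2 := hsr.trans_le (min_le_left _ _)
  have hs2 : s < r1 := hsr.trans_le (min_le_right _ _)
  obtain ⟨δ0, hδ0, H1⟩ := H (2 * s) (by positivity) (by linarith) η hη
  obtain ⟨δ1, hδ1, H2⟩ := hE s hs hs2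
  refine ⟨min δ0 δ1, lt_min hδ0 hδ1, ?_⟩
  intro b δ hδ hδm hb K hK hKc
  -- the reflected compact set
  have hK1 : IsCompact ((starRingEnd ℂ) '' K) := hKc.image Complex.continuous_conj
  have hK2 : (starRingEnd ℂ) '' K ⊆ Ur b := by
    rintro _ ⟨z, hz, rfl⟩
    exact conj_Ur (hK hz)
  obtain ⟨ρ, hρ, hsub⟩ := hK1.exists_cthickening_subset_open (show IsOpen (Ur b) from isOpen_interior) hK2
  have hK3 : IsCompact (cthickening ρ ((starRingEnd ℂ) '' K)) := hK1.cthickening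
  obtain ⟨h0, H3⟩ := H1 b δ hδ (hδm.trans (min_le_left _ _)) hb _ hsub hK3
  obtain ⟨h1, H4⟩ := H2 b δ hδ (hδm.trans (min_le_right _ _)) hb
  obtain ⟨h2, hh2⟩ := exists_nat_gt (1 / min ρ s)
  have hm : 0 < min ρ s := lt_min hρ hs
  refine ⟨max (max h0 h1) (max h2 1), fun h hh v hv hv' => ?_⟩
  have g0 : h0 ≤ h := ((le_max_left _ _).trans (le_max_left _ _)).trans hh
  have g1 : h1 ≤ h := ((le_max_right _ _).trans (le_max_left _ _)).trans hh
  have g2 : h2 ≤ h := ((le_max_left _ _).trans (le_max_right _ _)).trans hh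
  have g3 : 1 ≤ h := ((le_max_right _ _).trans (le_max_right _ _)).trans hh
  have hR : 0 < Rb b h := Rb_pos hb.H0 g3
  have hR1 : 1 / Rb b h ≤ min ρ s := by
    rw [div_le_iff₀ hR]
    rw [div_lt_iff₀ hm] at hh2
    have h3 : (h2 : ℝ) ≤ h := by exact_mod_cast g2
    have h4 : (h : ℝ) ≤ Rb b h := by
      unfold Rb
      have h5 : (1 : ℝ) ≤ b.H := by exact_mod_cast hb.H0
      have h6 : (0 : ℝ) ≤ h := by positivity
      nlinarith
    have h5 : (h2 : ℝ) ≤ Rb b h := h3.trans h4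
    have : (h2 : ℝ) * min ρ s ≤ min ρ s * Rb b h := by
      rw [mul_comm]; exact mul_le_mul_of_nonneg_left h5 hm.le
    linarith
  have hd := dist_lat_rp hR v
  have hKr : lat (rp v) / (Rb b h : ℂ) ∈ cthickening ρ ((starRingEnd ℂ) '' K) := by
    refine mem_cthickening_of_dist_le _ _ ρ _ (mem_image_of_mem _ hv) ?_
    rw [hd]
    exact hR1.trans (min_le_left _ _)
  obtain ⟨k1, k2⟩ := H4 h g1 v (hK hv) (hsub hKr) hv'.1 hv'.2
  have hball : lat (rp v) / (Rb b h : ℂ) ∈ closedBall z0 (2 * s) := by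
    rw [mem_closedBall]
    refine (dist_triangle _ ((starRingEnd ℂ) (lat v / (Rb b h : ℂ))) _).trans ?_
    rw [hd]
    have h6 : dist ((starRingEnd ℂ) (lat v / (Rb b h : ℂ))) z0 =
        dist (lat v / (Rb b h : ℂ)) ((starRingEnd ℂ) z0) := by
      rw [Complex.dist_eq, Complex.dist_eq, ← Complex.norm_conj, map_sub, Complex.conj_conj]
    have h7 := mem_closedBall.1 hv'.1
    rw [h6]
    linarith [hR1.trans (min_le_right _ _)]
  have key := H3 h g0 (rp v) hKr ⟨hball, k1⟩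
  refine k2.trans (key.trans ?_)
  have h8 : (2 * s / r0) ^ c ≤ (s / min (r0 / 2) r1) ^ c := by
    apply Real.rpow_le_rpow (by positivity) _ hc.le
    rw [div_le_div_iff₀ hr0 (lt_min (by positivity) hr1)]
    have h9 : min (r0 / 2) r1 ≤ r0 / 2 := min_le_left _ _
    calc 2 * s * min (r0 / 2) r1 ≤ 2 * s * (r0 / 2) := mul_le_mul_of_nonneg_left h9 (by positivity)
      _ = s * r0 := by ring
  have h10 : (0 : ℝ) ≤ (2 * s / r0) ^ c := by positivity
  have h11 : C * (2 * s / r0) ^ c ≤ |C| * (s / min (r0 / 2) r1) ^ c := by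
    calc C * (2 * s / r0) ^ c ≤ |C| * (2 * s / r0) ^ c := mul_le_mul_of_nonneg_right (le_abs_self C) h10
      _ ≤ _ := mul_le_mul_of_nonneg_left h8 (abs_nonneg C)
  linarith

/-! ### XP, the bank `false` -/

/-- reflection of a boundary point -/
def rb (c : Bool × ℝ) : Bool × ℝ := (!c.1, c.2)

@[simp] lemma rb_rb (c : Bool × ℝ) : rb (rb c) = c := by unfold rb; simp

lemma rb_ne {c c' : Bool × ℝ} (h : c ≠ c') : rb c ≠ rb c' := fun he => h (by
  rw [← rb_rb c, he, rb_rb])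

lemma cor_rb (b : JBox) (c : Bool × ℝ) : cor b (rb c) = rm (cor b c) := rfl

lemma bdp_rb (c : Bool × ℝ) : bdp (rb c) = (starRingEnd ℂ) (bdp c) := by
  apply Complex.ext
  · rw [Complex.conj_re]; rfl
  · rw [Complex.conj_im]
    unfold bdp rb sgn
    rcases c with ⟨u, y⟩
    cases u <;> simp

/-- the law of the far end in the reflected `G` world -/
lemma PJ_GP' {h : ℕ} (hh : 0 < h) (w s : Bool) (x1 : ℤ) {c2 c3 c4 : Bool × ℕ} (h1 : c2 ≠ c3) (h2 : c2 ≠ c4)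
    (h3 : c3 ≠ c4) (o : Bool) (q : Bool × ℕ) :
    b.PJ h (fun ω => RF b (2 * h) (GP b h w s x1 (rm c2) (rm c3) (rm c4) o ω) (mc s x1) (rm q)) =
      b.PJ h (fun ω => RF b (2 * h) (GP b h w (!s) x1 c2 c3 c4 o ω) (mc (!s) x1) q) := by
  have := PJ_GP (b := b) hh w (!s) x1 h1 h2 h3 o q
  rw [Bool.not_not] at this
  exact this

/-- the error of XP and its reflection -/
lemma eQ_rm {h : ℕ} (hh : 0 < h) (w s o : Bool) (x1 : ℤ) {c2 c3 c4 : Bool × ℕ} (h1 : c2 ≠ c3) (h2 : c2 ≠ c4)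
    (h3 : c3 ≠ c4) (q : Bool × ℕ) {v : ℤ × ℤ} (hv : v.1 ≤ b.X * (2 * (h : ℤ))) :
    Pool.Agent.H80.W.eQ b h w (!s) o x1 c2 c3 c4 q v =
      Pool.Agent.H80.W.eQ b h w s o x1 (rm c2) (rm c3) (rm c4) (rm q) (rp v) := by
  unfold Pool.Agent.H80.W.eQ
  rw [PJ_GX hh w h1 h2 h3 hv o q, PJ_GP' hh w s x1 h1 h2 h3 o q]

/-- tiles of the room are not in the row `0` behind the foot of the slit -/
lemma InR_row0 (hb : b.Ok δ σ) {n : ℤ} (hn : 0 < n) {x : ℤ} (hx : x < 0) : ¬ InR b n x 0 := by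
  rintro ⟨-, h⟩
  have h0 : (0 : ℤ) / n = 0 := by simp
  have hM : (0 : ℤ) < b.M * n := mul_pos (by exact_mod_cast hb.M0) hn
  have h1 : chn 0 b.M b.τ (x / n, 0 / n) = some (pin b n x) := by
    rw [chn_tile hb.M0 hn]
    refine ⟨(pin_eq hb.M0 hn hx).1 rfl, ?_⟩
    have h2 : (1 : ℤ) ≤ b.τ := by exact_mod_cast hb.τ0
    have h3 : (0 : ℤ) < ((b.τ : ℤ) + pin b n x) * n := by positivity
    constructor <;> linarith
  rw [h1] at h
  exact absurd h (by simp)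

/-- columns of the room -/
lemma InR_colX (hb : b.Ok δ σ) {n : ℤ} (hn : 0 < n) {x y : ℤ} (h : InR b n x y) : x ≤ b.X * n :=
  (InQ_col hb hn h.1).2.le

/-- **XP: the mirror.** -/
theorem xq_mir {x : ℝ} (hx : x < 0) {c b3 b4 : Bool × ℝ} (h3 : c ≠ b3) (h4 : c ≠ b4) (h34 : b3 ≠ b4)
    {w o : Bool} {j : Fin 3} (H : Pool.Agent.H80.W.XQ σ w true o x (rb c) (rb b3) (rb b4) j) :
    Pool.Agent.H80.W.XQ σ w false o x c b3 b4 j := by
  have hcx : (starRingEnd ℂ) (x : ℂ) = x := Complex.conj_ofReal x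
  unfold Pool.Agent.H80.W.XQ at H ⊢
  rw [← hcx]
  obtain ⟨d4, p4, q4⟩ := cor_box_ne h3
  obtain ⟨d5, p5, q5⟩ := cor_box_ne h4
  obtain ⟨d6, p6, q6⟩ := cor_box_ne h34
  refine scb_mir H (r1 := -x) (by linarith) fun s hs hsx => ?_
  refine ⟨min d4 (min d5 d6), lt_min p4 (lt_min p5 p6), fun b δ hδ hδ0 hb => ?_⟩
  simp only [le_min_iff] at hδ0
  obtain ⟨e4, e5, e6⟩ := hδ0
  refine ⟨1, fun h hh v hv hv2 hball hZ => ?_⟩
  have hR : 0 < Rb b h := Rb_pos hb.H0 hh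
  have hn : (0 : ℤ) < 2 * h := by positivity
  have eU : ∀ u : ℤ × ℤ, lat u / (Rb b h : ℂ) ∈ Ur b → InR b (2 * h) u.1 u.2 := by
    intro u hu
    refine InR_of_mem hb hh ?_
    have : ((2 * h * b.H : ℝ) : ℂ) = (Rb b h : ℂ) := by unfold Rb; push_cast; ring
    rw [this]
    exact hu
  have hIn := eU _ hv
  have hIn2 := eU _ hv2
  rw [hcx] at hball
  obtain ⟨n1, -⟩ := Setup.near_of_ball hR hball
  rw [Complex.ofReal_re, abs_le] at n1
  have hv1 : v.1 < 0 := by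
    have : (v.1 : ℝ) < 0 := by nlinarith [n1.2]
    exact_mod_cast this
  have hneg : v.2 < 0 := by
    have h5 : 0 < sgn false * (lat v / (Rb b h : ℂ)).im := hZ
    rw [lat_div_im] at h5
    unfold sgn at h5
    simp only [Bool.false_eq_true, if_false] at h5
    have h6 : (v.2 : ℝ) / Rb b h < 0 := by linarith
    have h7 : (v.2 : ℝ) < 0 := by
      rcases div_neg_iff.1 h6 with ⟨-, h8⟩ | ⟨h8, -⟩
      · exact absurd hR (not_lt.2 h8.le)
      · exact h8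
    exact_mod_cast h7
  have hr2 : (rp v).2 = -1 - v.2 := rfl
  have hr1 : (rp v).1 = v.1 := rfl
  have hpos : 0 < (rp v).2 := by
    rcases (show 0 ≤ (rp v).2 by omega).lt_or_eq with h5 | h5
    · exact h5
    · exfalso
      rw [hr1, ← h5] at hIn2
      exact InR_row0 hb hn hv1 hIn2
  constructor
  · show 0 < sgn true * (lat (rp v) / (Rb b h : ℂ)).im
    rw [lat_div_im]
    unfold sgn
    simp only [if_true, one_mul]
    have : (0 : ℝ) < (rp v).2 := by exact_mod_cast hpos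
    positivity
  · have key := eQ_rm (b := b) hh w true o (gp b (2 * h) x) (q4 b δ σ hδ e4 hb) (q5 b δ σ hδ e5 hb)
      (q6 b δ σ hδ e6 hb) (![cor b c, cor b b3, cor b b4] j) (InR_colX hb hn hIn)
    rw [Bool.not_true] at key
    rw [key, cor_rb, cor_rb, cor_rb]
    apply le_of_eq
    congr 1
    fin_cases j <;> rfl

end Pool.Agent.H7.W
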