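import Mathlib
import Pool.Agent.H7.W.JMirS
import Pool.Agent.H73.W.JNames0
import Pool.Agent.H50.W.JPair

set_option autoImplicit false
open Finset

/-! # The ceiling from the floor: reflection of the worlds with a mark as start

`scb_ceil` : generic mirror of a scale pair at a boundary point. `fa_rm`, `al_rm` : the alive corner of a mark.
`PJ_GP_st`, `PJ_GP_stc` : far ends and passages of an arbitrary end of the `G` world. `PJ_GG_st` : world with
four marks on the wall. -/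

namespace Pool.Agent.H7.W

open Pool.Agent.H33.Q1 Pool.Agent.H61.W Pool.Agent.H6.W Pool.Agent.H71.W Pool.Agent.H13.W
open Pool.Agent.H87.Fld (Rb ScB EvB Rb_pos lat_div_re lat_div_im)
open Pool.Agent.H16.W (rp rp_rp rm rm_rm rm_inj rp_mem_Q chn_rp PJ_GX PJ_GP PJ_GY PJ_GY_cnt cntq RF_S_N
  RF_of_reach reach_GP reach_GX reach_GY reach_GGM PJ_sw two_pos colM_rm tp f1_rm f2_rm Yr_not mc_not zc_rp
  sw_lt cfg_sw bsP_ok3 bsP_ok2 image_rm3 image_rm2)
open Pool.Agent.H45.W (sw sw_sw sw_inj swF eS_sw eN_sw)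
open Pool.Agent.H73.W (fa alv)
open Pool.Agent.Q1.M4 (lat)
open Metric Set Filter Topology

variable {σ δ : ℝ} {b : JBox}

/-- **Mirror of a scale pair at a boundary point.** -/
theorem scb_ceil {c : Bool × ℝ} {e e' : JBox → ℕ → ℤ × ℤ → ℝ} (H : ScB σ (bdp (rb c)) univ e)
    (hE : ∃ δ1 > 0, ∀ (b : JBox) (δ : ℝ), 0 < δ → δ ≤ δ1 → b.Ok δ σ → ∃ h0 : ℕ, ∀ h : ℕ, h0 ≤ h →
      ∀ v : ℤ × ℤ, lat v / (Rb b h : ℂ) ∈ Ur b → lat (rp v) / (Rb b h : ℂ) ∈ Ur b →
      e' b h v ≤ e b h (rp v)) : ScB σ (bdp c) univ e' := by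
  have h0 : bdp c = (starRingEnd ℂ) (bdp (rb c)) := by rw [← bdp_rb, rb_rb]
  rw [h0]
  refine scb_mir H one_pos fun s _ _ => ?_
  obtain ⟨δ1, hδ1, H1⟩ := hE
  refine ⟨δ1, hδ1, fun b δ hδ hδ0 hb => ?_⟩
  obtain ⟨h0, H2⟩ := H1 b δ hδ hδ0 hb
  exact ⟨h0, fun h hh v hv hv' _ _ => ⟨mem_univ _, H2 h hh v hv hv'⟩⟩

/-! ### The alive corner of a mark -/

section al
variable {n : ℤ} (base : Bool) (M : Finset (Bool × ℕ)) (ex ex' : Option ℤ)

lemma col_rm (hex : ex' = ex.map fun r => -1 - r) (q : Bool × ℕ) :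
    (if (rm q).1 then (colM (base ^^ tp M ex) (M.image rm) ex').u ((rm q).2 + 1)
      else (colM (base ^^ tp M ex) (M.image rm) ex').l ((rm q).2 + 1)) =
    (if q.1 then (colM base M ex).u (q.2 + 1) else (colM base M ex).l (q.2 + 1)) := by
  obtain ⟨h1, h2, -⟩ := colM_rm base M ex ex' hex
  obtain ⟨u, i⟩ := q
  cases u
  · show (colM (base ^^ tp M ex) (M.image rm) ex').u (i + 1) = (colM base M ex).l (i + 1)
    rw [← h1]
    rfl
  · show (colM (base ^^ tp M ex) (M.image rm) ex').l (i + 1) = (colM base M ex).u (i + 1)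
    rw [← h2]
    rfl

lemma cpt_rm (q : Bool × ℕ) : ((cpt b n (rm q)).1 - (cpt b n (rm q)).2) % 2 =
    ((cpt b n q).1 - (cpt b n q).2) % 2 := by
  obtain ⟨u, i⟩ := q
  unfold cpt rm
  cases u
  · simp only [Bool.not_false, if_true, Bool.false_eq_true, if_false]
    omega
  · simp only [Bool.not_true, Bool.false_eq_true, if_false, if_true]
    omega

/-- 73's alive corner -/
theorem fa_rm (hex : ex' = ex.map fun r => -1 - r) (q : Bool × ℕ) :
    fa b n (colM (base ^^ tp M ex) (M.image rm) ex') (rm q) = sw (fa b n (colM base M ex) q) := by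
  unfold fa
  have h1 : alv b n (colM (base ^^ tp M ex) (M.image rm) ex') (rm q) = alv b n (colM base M ex) q := by
    unfold alv
    rw [col_rm base M ex ex' hex, cpt_rm]
  rw [h1]
  split_ifs
  · exact f1_rm q
  · exact f2_rm q

/-- 50's alive corner -/
theorem al_rm (hex : ex' = ex.map fun r => -1 - r) (q : Bool × ℕ) :
    Pool.Agent.H50.W.JC.al b n (colM (base ^^ tp M ex) (M.image rm) ex') (rm q) =
      sw (Pool.Agent.H50.W.JC.al b n (colM base M ex) q) := by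
  unfold Pool.Agent.H50.W.JC.al
  rw [col_rm base M ex ex' hex]
  by_cases hc : (if q.1 then (colM base M ex).u (q.2 + 1) else (colM base M ex).l (q.2 + 1)) = true
  · rw [if_pos hc, if_pos hc]
    exact f2_rm q
  · rw [if_neg hc, if_neg hc]
    exact f1_rm q

end al

/-! ### The `G` world with an arbitrary start -/

section gp
variable {h : ℕ}

/-- law of the far end of an arbitrary corner in the `G` world -/
theorem PJ_GP_st (hh : 0 < h) (w s : Bool) (x1 : ℤ) {c2 c3 c4 : Bool × ℕ} (h1 : c2 ≠ c3) (h2 : c2 ≠ c4)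
    (h3 : c3 ≠ c4) (o : Bool) (c : ℤ × ℤ) (q : Bool × ℕ) :
    b.PJ h (fun ω => RF b (2 * h) (GP b h w (!s) x1 (rm c2) (rm c3) (rm c4) o ω) (sw c) (rm q)) =
      b.PJ h (fun ω => RF b (2 * h) (GP b h w s x1 c2 c3 c4 o ω) c q) := by
  rw [← PJ_sw hh]
  congr 1
  funext ω
  exact propext (RF_of_reach fun c d => reach_GP hh w s x1 h1 h2 h3 o ω)

/-- **the passages in the reflected `G` world** -/
theorem cntq_GP (hst : ∀ i < b.K, -(b.X : ℤ) ≤ b.st i) (hh : 0 < h) (hH : 0 < b.H) (hX : 0 < b.X)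
    (w s : Bool) (x1 : ℤ) {c2 c3 c4 : Bool × ℕ} (h1 : c2 ≠ c3) (h2 : c2 ≠ c4) (h3 : c3 ≠ c4)
    (o : Bool) (ω : Finset (ℤ × ℤ)) (q : Bool × ℕ) :
    cntq b h (!s) x1 (rm q) (GP b h w (!s) x1 (rm c2) (rm c3) (rm c4) o (swF ω)) =
      cntq b h s x1 q (GP b h w s x1 c2 c3 c4 o ω) := by
  unfold cntq
  congr 1
  ext x
  simp only [Set.mem_ofPred_eq]
  refine and_congr_right fun hx => ?_
  have e1 : eS (lt (x, Yr !s)) = sw (eN (lt (x, Yr s))) := by
    rw [Yr_not]
    have : (x, -1 - Yr s) = rp (x, Yr s) := rfl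
    rw [this, ← sw_lt, eS_sw]
  rw [e1, RF_of_reach (fun c d => reach_GP hh w s x1 h1 h2 h3 o ω)]
  exact RF_S_N hst (by omega) hH hX s (show (x, Yr s) ∈ slD s x1 from ⟨rfl, hx⟩) q

/-- law of the mark on `P` as far end of an arbitrary corner in the `G` world, with a condition on the
passages of the strand of the mark `q` -/
theorem PJ_GP_stc (hst : ∀ i < b.K, -(b.X : ℤ) ≤ b.st i) (hh : 0 < h) (hH : 0 < b.H) (hX : 0 < b.X)
    (w s : Bool) (x1 : ℤ) {c2 c3 c4 : Bool × ℕ} (h1 : c2 ≠ c3) (h2 : c2 ≠ c4) (h3 : c3 ≠ c4)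
    (o : Bool) (c : ℤ × ℤ) (q : Bool × ℕ) (P : ℕ → Prop) :
    b.PJ h (fun ω => (GP b h w (!s) x1 (rm c2) (rm c3) (rm c4) o ω).Reachable (sw c) (mc (!s) x1) ∧
        P (cntq b h (!s) x1 (rm q) (GP b h w (!s) x1 (rm c2) (rm c3) (rm c4) o ω))) =
      b.PJ h (fun ω => (GP b h w s x1 c2 c3 c4 o ω).Reachable c (mc s x1) ∧
        P (cntq b h s x1 q (GP b h w s x1 c2 c3 c4 o ω))) := by
  rw [← PJ_sw hh]
  congr 1
  funext ω
  rw [mc_not, reach_GP hh w s x1 h1 h2 h3 o ω, cntq_GP hst hh hH hX w s x1 h1 h2 h3 o ω q]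

/-- law of the far end of an arbitrary corner in a world without string and without mark on `P` -/
theorem PJ_GG_st (hh : 0 < h) (base : Bool) (M : Finset (Bool × ℕ)) (o : Bool) (c : ℤ × ℤ) (q : Bool × ℕ) :
    b.PJ h (fun ω => RF b (2 * h) (GG b (2 * h) (M.image rm) (colM (base ^^ tp M none) (M.image rm) none) ∅
        (cfg b h o ω)) (sw c) (rm q)) =
      b.PJ h (fun ω => RF b (2 * h) (GG b (2 * h) M (colM base M none) ∅ (cfg b h o ω)) c q) := by
  rw [← PJ_sw hh]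
  congr 1
  funext ω
  have key : ∀ c d, (GG b (2 * h) (M.image rm) (colM (base ^^ tp M none) (M.image rm) none) ∅
      (cfg b h o (swF ω))).Reachable (sw c) (sw d) ↔
      (GG b (2 * h) M (colM base M none) ∅ (cfg b h o ω)).Reachable c d := by
    intro c d
    rw [← reach_GGM (two_pos hh) base M none none rfl ∅ (by rintro r hr; cases hr) (cfg b h o ω),
      cfg_sw hh]
    rfl
  exact propext (RF_of_reach key)

end gp

end Pool.Agent.H7.W
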