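import Mathlib
import Pool.Agent.H7.W.JCeil
import Pool.Agent.H50.W.JXW

set_option autoImplicit false
open Finset

/-! # XBd at the ceiling from XBd at the floor -/

namespace Pool.Agent.H7.W

open Pool.Agent.H61.W Pool.Agent.H6.W Pool.Agent.H71.W
open Pool.Agent.H87.Fld (Rb ScB EvB Rb_pos lat_div_re lat_div_im)
open Pool.Agent.H16.W (rp rm PJ_GX tp)
open Pool.Agent.H45.W (sw)
open Pool.Agent.H50.W.JF (GC ac eW XW)
open Pool.Agent.Q1.M4 (lat)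

variable {σ : ℝ} {b : JBox}

lemma image_rm4 (c1 c2 c3 c4 : Bool × ℕ) :
    ({c1, c2, c3, c4} : Finset (Bool × ℕ)).image rm = {rm c1, rm c2, rm c3, rm c4} := by
  rw [image_insert, image_insert, image_insert, image_singleton]

lemma bs_ok4 (w : Bool) {c1 c2 c3 c4 : Bool × ℕ} (n12 : c1 ≠ c2) (n13 : c1 ≠ c3) (n14 : c1 ≠ c4)
    (n23 : c2 ≠ c3) (n24 : c2 ≠ c4) (n34 : c3 ≠ c4) : (bs w ^^ tp {c1, c2, c3, c4} none) = bs w := by
  have hc : ({c1, c2, c3, c4} : Finset (Bool × ℕ)).card = 4 := by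
    rw [card_insert_of_notMem (by simp [n12, n13, n14]), card_insert_of_notMem (by simp [n23, n24]),
      card_insert_of_notMem (by simp [n34]), card_singleton]
  unfold tp
  rw [hc]
  cases w <;> rfl

/-- **the error of XBd and its reflection** -/
lemma eW_rm {h : ℕ} (hh : 0 < h) (w o : Bool) {c1 c2 c3 c4 : Bool × ℕ} (n12 : c1 ≠ c2) (n13 : c1 ≠ c3)
    (n14 : c1 ≠ c4) (n23 : c2 ≠ c3) (n24 : c2 ≠ c4) (n34 : c3 ≠ c4) (q : Bool × ℕ) {v : ℤ × ℤ}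
    (hv : v.1 ≤ b.X * (2 * (h : ℤ))) :
    eW b h w o (rm c1) (rm c2) (rm c3) (rm c4) (rm q) (rp v) = eW b h w o c1 c2 c3 c4 q v := by
  have h1 := PJ_GX (b := b) hh w n23 n24 n34 hv o q
  have h2 := PJ_GG_st (b := b) hh (bs w) {c1, c2, c3, c4} o (ac b h w c1 c2 c3 c4) q
  have h3 := al_rm (b := b) (n := 2 * h) (bs w) {c1, c2, c3, c4} none none rfl c1
  rw [bs_ok4 w n12 n13 n14 n23 n24 n34, image_rm4] at h2 h3
  have h4 : sw (ac b h w c1 c2 c3 c4) = ac b h w (rm c1) (rm c2) (rm c3) (rm c4) := h3.symm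
  rw [h4] at h2
  unfold eW
  rw [h1]
  congr 2

/-- **XBd: the mirror.** -/
theorem xw_mir {w o : Bool} {p c b3 b4 : Bool × ℝ} (n12 : p ≠ c) (n13 : p ≠ b3) (n14 : p ≠ b4)
    (n23 : c ≠ b3) (n24 : c ≠ b4) (n34 : b3 ≠ b4) {j : Fin 3}
    (H : XW σ w o (rb p) (rb c) (rb b3) (rb b4) j) : XW σ w o p c b3 b4 j := by
  obtain ⟨d1, p1, q1⟩ := cor_box_ne n12
  obtain ⟨d2, p2, q2⟩ := cor_box_ne n13
  obtain ⟨d3, p3, q3⟩ := cor_box_ne n14
  obtain ⟨d4, p4, q4⟩ := cor_box_ne n23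
  obtain ⟨d5, p5, q5⟩ := cor_box_ne n24
  obtain ⟨d6, p6, q6⟩ := cor_box_ne n34
  refine scb_ceil H ⟨min (min d1 (min d2 d3)) (min d4 (min d5 d6)), ?_, ?_⟩
  · exact lt_min (lt_min p1 (lt_min p2 p3)) (lt_min p4 (lt_min p5 p6))
  intro b δ hδ hδ0 hb
  simp only [le_min_iff] at hδ0
  obtain ⟨⟨e1, e2, e3⟩, e4, e5, e6⟩ := hδ0
  refine ⟨1, fun h hh v hv _ => ?_⟩
  have hn : (0 : ℤ) < 2 * h := by positivity
  have hIn : InR b (2 * h) v.1 v.2 := by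
    refine InR_of_mem hb hh ?_
    have : ((2 * h * b.H : ℝ) : ℂ) = (Rb b h : ℂ) := by unfold Rb; push_cast; ring
    rw [this]
    exact hv
  have key := eW_rm (b := b) hh w o (q1 b δ σ hδ e1 hb) (q2 b δ σ hδ e2 hb) (q3 b δ σ hδ e3 hb)
    (q4 b δ σ hδ e4 hb) (q5 b δ σ hδ e5 hb) (q6 b δ σ hδ e6 hb)
    (![cor b c, cor b b3, cor b b4] j) (InR_colX hb hn hIn)
  rw [← key, cor_rb, cor_rb, cor_rb, cor_rb]
  apply le_of_eq
  congr 1
  fin_cases j <;> rfl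

end Pool.Agent.H7.W
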