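import Mathlib
import Pool.Agent.H7.W.XScale
import Pool.Agent.H80.W.XPFix

set_option autoImplicit false
open Finset

/-! # XP, the bank `true`: scale form

`RowAU`, `RowBU` : the forced rows, uniform form (28).
`xq_of` : the difference of the laws of the far end for one mark and one state of `P`. -/

namespace Pool.Agent.H7.W

open Pool.Agent.H61.W Pool.Agent.H6.W Pool.Agent.H58.W Pool.Agent.H21.W Pool.Agent.H71.W
open Pool.Agent.H70.W
open Pool.Agent.H50.W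
open Pool.Agent.H80.W
open Pool.Agent.H87.Fld (Rb ScB EvB)
open Pool.Agent.Q1.M4 (lat)

variable {σ : ℝ}

/-- forced row of the room along the upper bank, left of `a0` -/
def RowAU (b : JBox) : Prop := ∀ κ > (0 : ℝ), ∀ η > (0 : ℝ), ∃ h0 : ℕ, ∀ h : ℕ, h0 ≤ h →
  ∀ (M : Finset (Bool × ℕ)) (w o : Bool) (a0 : ℤ) (v : ℤ × ℤ) (q : Bool × ℕ), q ∈ M →
  (∀ c ∈ M, c.2 < b.K) → -((b.X : ℤ) * (2 * h)) ≤ a0 → a0 ≤ 0 → InR b (2 * h) v.1 v.2 →
  (a0 : ℝ) + κ * h ≤ v.1 → RowA b h M w o a0 v q η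

/-- forced row of the room below the ceiling -/
def RowBU (b : JBox) : Prop := ∀ η > (0 : ℝ), ∃ h0 : ℕ, ∀ h : ℕ, h0 ≤ h →
  ∀ (M : Finset (Bool × ℕ)) (w o : Bool) (x1 : ℤ) (q : Bool × ℕ), q ∈ M →
  (∀ c ∈ M, c.2 < b.K) → -((b.X : ℤ) * (2 * h)) ≤ x1 → x1 ≤ 0 → RowB b h M w o x1 q η

/-- **XP for the bank `true`, one mark and one state of `P`.** -/
theorem xq_of (hRA : ∀ (b : JBox) (δ : ℝ), 0 < δ → δ ≤ 1 → b.Ok δ σ → RowAU b)
    (hRB : ∀ (b : JBox) (δ : ℝ), 0 < δ → δ ≤ 1 → b.Ok δ σ → RowBU b)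
    {x : ℝ} (hx : x ∈ Set.Ioo (-σ) 0) {c b3 b4 : Bool × ℝ} (h3 : c ≠ b3) (h4 : c ≠ b4) (h34 : b3 ≠ b4)
    (w o : Bool) (j : Fin 3) : XQ σ w true o x c b3 b4 j := by
  obtain ⟨C, α, hC, hα, H⟩ := bank_half
  obtain ⟨r0, hr0, H2⟩ := H σ x hx
  refine ⟨C, α, r0, hα, hr0, fun s hs hsr η hη => ?_⟩
  obtain ⟨δ1, hδ1, H3⟩ := H2 s hs hsr
  obtain ⟨d1, p1, q1⟩ := cor_box c
  obtain ⟨d2, p2, q2⟩ := cor_box b3
  obtain ⟨d3, p3, q3⟩ := cor_box b4
  obtain ⟨d4, p4, q4⟩ := cor_box_ne h3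
  obtain ⟨d5, p5, q5⟩ := cor_box_ne h4
  obtain ⟨d6, p6, q6⟩ := cor_box_ne h34
  refine ⟨min (min (min δ1 (s / 8)) (min 1 d1)) (min (min d2 d3) (min d4 (min d5 d6))), ?_, ?_⟩
  · exact lt_min (lt_min (lt_min hδ1 (by positivity)) (lt_min one_pos p1))
      (lt_min (lt_min p2 p3) (lt_min p4 (lt_min p5 p6)))
  intro b δ hδ hδ0 hb K hK hKc
  simp only [le_min_iff] at hδ0
  obtain ⟨⟨⟨e1, e2⟩, e3, e4⟩, ⟨e5, e6⟩, e7, e8, e9⟩ := hδ0
  obtain ⟨h0, H4⟩ := H3 b δ hδ e1 hb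
  have hH := H_pos hb
  obtain ⟨hA0, HA⟩ := hRA b δ hδ e3 hb (s * b.H) (by positivity) (η / 2) (half_pos hη)
  obtain ⟨hB0, HB⟩ := hRB b δ hδ e3 hb (η / 2) (half_pos hη)
  refine ⟨max (max h0 2) (max hA0 hB0), fun h hh v hv hv' => ?_⟩
  have g1 : h0 ≤ h := ((le_max_left _ _).trans (le_max_left _ _)).trans hh
  have g2 : 2 ≤ h := ((le_max_right _ _).trans (le_max_left _ _)).trans hh
  have g3 : hA0 ≤ h := ((le_max_left _ _).trans (le_max_right _ _)).trans hh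
  have g4 : hB0 ≤ h := ((le_max_right _ _).trans (le_max_right _ _)).trans hh
  have hpos : 0 < h := by omega
  obtain ⟨S, ρ, M, B, N, hS2, -, HP⟩ := H4 h g1
  have hR0 : 0 < Rb b h := Pool.Agent.H87.Fld.Rb_pos hb.H0 hpos
  have hv2 : 0 < v.2 := by
    have h5 := hv'.2
    simp only [Set.mem_ofPred_eq, Pool.Agent.H87.Fld.lat_div_im, sgn] at h5
    rw [if_pos trivial, one_mul] at h5
    have := (div_pos_iff_of_pos_right hR0).1 h5
    exact_mod_cast this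
  obtain ⟨U, hdist⟩ := xscl (δ := δ) (σ := σ) hs hb (by linarith) hpos N hS2 hv'.1 (hK hv) hv2
  have k2 := q1 b δ σ hδ e4 hb
  have k3 := q2 b δ σ hδ e5 hb
  have k4 := q3 b δ σ hδ e6 hb
  have n1 := q4 b δ σ hδ e7 hb
  have n2 := q5 b δ σ hδ e8 hb
  have n3 := q6 b δ σ hδ e9 hb
  set q : Bool × ℕ := ![cor b c, cor b b3, cor b b4] j with hq
  have hqM : q ∈ ({cor b c, cor b b3, cor b b4} : Finset (Bool × ℕ)) := by
    rw [hq]
    fin_cases j <;> simp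
  have hMK : ∀ c' ∈ ({cor b c, cor b b3, cor b b4} : Finset (Bool × ℕ)), c'.2 < b.K := by
    intro c' hc'
    simp only [mem_insert, mem_singleton] at hc'
    rcases hc' with rfl | rfl | rfl
    · exact k2
    · exact k3
    · exact k4
  have hamX := U.amX
  have ham := U.am
  have ha0x := U.a0x
  have hxa1 := U.xa1
  have ha10 := U.a10
  have hInR : InR b (2 * h) v.1 v.2 := by
    refine InR_of_mem hb hpos ?_
    have : ((2 * h * b.H : ℝ) : ℂ) = (Rb b h : ℂ) := by unfold Rb; push_cast; ring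
    rw [this]
    exact hK hv
  have rA := HA h g3 {cor b c, cor b b3, cor b b4} w o (gp b (2 * h) x - S) v q hqM hMK
    (by linarith) (by linarith) hInR (by
      refine le_trans (le_of_eq ?_) hdist
      unfold Rb
      ring)
  have rB := HB h g4 {cor b c, cor b b3, cor b b4} w o (gp b (2 * h) x) q hqM hMK
    (by linarith) (by linarith)
  have key := xp_fix U g2 (N.xpg U (M := {cor b c, cor b b3, cor b b4}) (bse := bs w) (o := o))
    (N.an_sub U) (fun e he => cpl_Er hb U.hn he) k2 k3 k4 n1 n2 n3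
    hqM rA rB
  refine key.trans ?_
  have hP := HP (XB b h {cor b c, cor b b3, cor b b4} (bs w) o (gp b (2 * h) x)).E (N.half U)
    ((ℤ × ℤ) ⊕ ℕ) (XB b h {cor b c, cor b b3, cor b b4} (bs w) o (gp b (2 * h) x)).b
    (fun l hl l' hl' he => blk_Er hb U.hn hl hl' he)
  linarith

end Pool.Agent.H7.W
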