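import Mathlib
import Pool.Agent.H7.W.JCeil

set_option autoImplicit false
open Finset

/-! # YBd at the ceiling from YBd at the floor -/

namespace Pool.Agent.H7.W

open Pool.Agent.H61.W Pool.Agent.H6.W Pool.Agent.H71.W
open Pool.Agent.H87.Fld (Rb ScB EvB Rb_pos lat_div_re lat_div_im)
open Pool.Agent.H16.W (rp rm PJ_GY PJ_GY_cnt cntq tp bsP_ok3 image_rm3)
open Pool.Agent.H45.W (sw)
open Pool.Agent.H73.W (fa ph)
open Pool.Agent.Q1.M4 (lat)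

variable {σ δ : ℝ} {b : JBox}

/-- value with an arbitrary mark -/
noncomputable def V1q (b : JBox) (h : ℕ) (s : Bool) (x1 : ℤ) (q : Bool × ℕ)
    (G : Finset (ℤ × ℤ) → SimpleGraph (ℤ × ℤ)) (c : ℤ × ℤ) : ℂ :=
  (b.PJ h (fun ω => RF b (2 * h) (G ω) c q) : ℂ) +
    ph * (b.PJ h (fun ω => (G ω).Reachable c (mc s x1) ∧ Even (cntq b h s x1 q (G ω))) : ℂ) +
    ph⁻¹ * (b.PJ h (fun ω => (G ω).Reachable c (mc s x1) ∧ ¬ Even (cntq b h s x1 q (G ω))) : ℂ)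

lemma st_X (hb : b.Ok δ σ) : ∀ i < b.K, -(b.X : ℤ) ≤ b.st i := fun i hi => (hb.st_lo i hi).1.le

lemma V1q_GY (hb : b.Ok δ σ) {h : ℕ} (hh : 0 < h) (w s : Bool) (x1 : ℤ) {c3 c4 : Bool × ℕ} (h3 : c3 ≠ c4)
    {v : ℤ × ℤ} (hv : v.1 ≤ b.X * (2 * (h : ℤ))) (o : Bool) (q : Bool × ℕ) :
    V1q b h (!s) x1 (rm q) (GY b h w (!s) x1 (rm c3) (rm c4) (rp v) o) (zc (rp v)) =
      V1q b h s x1 q (GY b h w s x1 c3 c4 v o) (zc v) := by
  have hX : 0 < b.X := by exact_mod_cast Pool.Agent.H21.W.X_pos hb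
  unfold V1q
  rw [PJ_GY hh w s x1 h3 hv o q,
    PJ_GY_cnt (st_X hb) hh hb.H0 hX w s x1 h3 hv o q (fun k => Even k),
    PJ_GY_cnt (st_X hb) hh hb.H0 hX w s x1 h3 hv o q (fun k => ¬ Even k)]

lemma V1q_GP (hb : b.Ok δ σ) {h : ℕ} (hh : 0 < h) (w s : Bool) (x1 : ℤ) {c2 c3 c4 : Bool × ℕ}
    (h1 : c2 ≠ c3) (h2 : c2 ≠ c4) (h3 : c3 ≠ c4) (o : Bool) (c : ℤ × ℤ) (q : Bool × ℕ) :
    V1q b h (!s) x1 (rm q) (GP b h w (!s) x1 (rm c2) (rm c3) (rm c4) o) (sw c) =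
      V1q b h s x1 q (GP b h w s x1 c2 c3 c4 o) c := by
  have hX : 0 < b.X := by exact_mod_cast Pool.Agent.H21.W.X_pos hb
  unfold V1q
  rw [PJ_GP_st hh w s x1 h1 h2 h3 o c q,
    PJ_GP_stc (st_X hb) hh hb.H0 hX w s x1 h1 h2 h3 o c q (fun k => Even k),
    PJ_GP_stc (st_X hb) hh hb.H0 hX w s x1 h1 h2 h3 o c q (fun k => ¬ Even k)]

/-- the alive corner of the mark `c2` in the `G` world -/
noncomputable def faP (b : JBox) (h : ℕ) (w s : Bool) (c2 c3 c4 : Bool × ℕ) : ℤ × ℤ :=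
  fa b (2 * h) (colM (bsP w s) {c2, c3, c4} none) c2

lemma faP_rm (h : ℕ) (w s : Bool) {c2 c3 c4 : Bool × ℕ} (h1 : c2 ≠ c3) (h2 : c2 ≠ c4) (h3 : c3 ≠ c4) :
    faP b h w (!s) (rm c2) (rm c3) (rm c4) = sw (faP b h w s c2 c3 c4) := by
  have := fa_rm (b := b) (n := 2 * h) (bsP w s) {c2, c3, c4} none none rfl c2
  rw [bsP_ok3 w s h1 h2 h3, image_rm3] at this
  exact this

/-- the scale form of one value -/
def YFl (σ : ℝ) (w s : Bool) (xb : ℝ) (c b3 b4 q0 : Bool × ℝ) (o : Bool) : Prop :=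
  ScB σ (bdp c) Set.univ fun B h v =>
    ‖V1q B h s (gp B (2 * h) xb) (cor B q0)
        (GY B h w s (gp B (2 * h) xb) (cor B b3) (cor B b4) v o) (zc v) -
      V1q B h s (gp B (2 * h) xb) (cor B q0)
        (GP B h w s (gp B (2 * h) xb) (cor B c) (cor B b3) (cor B b4) o)
        (fa B (2 * h) (colM (bsP w s) {cor B c, cor B b3, cor B b4} none) (cor B c))‖

/-- **YBd: the mirror.** -/
theorem yfl_mir {w s : Bool} {xb : ℝ} {c b3 b4 q0 : Bool × ℝ} {o : Bool} (n23 : c ≠ b3) (n24 : c ≠ b4)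
    (n34 : b3 ≠ b4) (H : YFl σ w (!s) xb (rb c) (rb b3) (rb b4) (rb q0) o) : YFl σ w s xb c b3 b4 q0 o := by
  obtain ⟨d4, p4, q4⟩ := cor_box_ne n23
  obtain ⟨d5, p5, q5⟩ := cor_box_ne n24
  obtain ⟨d6, p6, q6⟩ := cor_box_ne n34
  refine scb_ceil H ⟨min d4 (min d5 d6), lt_min p4 (lt_min p5 p6), ?_⟩
  intro b δ hδ hδ0 hb
  simp only [le_min_iff] at hδ0
  obtain ⟨e4, e5, e6⟩ := hδ0
  refine ⟨1, fun h hh v hv _ => ?_⟩
  have hn : (0 : ℤ) < 2 * h := by positivity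
  have hIn : InR b (2 * h) v.1 v.2 := by
    refine InR_of_mem hb hh ?_
    have : ((2 * h * b.H : ℝ) : ℂ) = (Rb b h : ℂ) := by unfold Rb; push_cast; ring
    rw [this]
    exact hv
  have m1 := q4 b δ σ hδ e4 hb
  have m2 := q5 b δ σ hδ e5 hb
  have m3 := q6 b δ σ hδ e6 hb
  have k1 := V1q_GY hb hh w s (gp b (2 * h) xb) m3 (InR_colX hb hn hIn) o (cor b q0)
  have k2 := V1q_GP hb hh w s (gp b (2 * h) xb) m1 m2 m3 o (faP b h w s (cor b c) (cor b b3) (cor b b4))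
    (cor b q0)
  rw [← faP_rm h w s m1 m2 m3] at k2
  show ‖V1q b h s (gp b (2 * h) xb) (cor b q0)
        (GY b h w s (gp b (2 * h) xb) (cor b b3) (cor b b4) v o) (zc v) -
      V1q b h s (gp b (2 * h) xb) (cor b q0)
        (GP b h w s (gp b (2 * h) xb) (cor b c) (cor b b3) (cor b b4) o)
        (faP b h w s (cor b c) (cor b b3) (cor b b4))‖ ≤ _
  rw [← k1, ← k2]
  exact le_rfl

end Pool.Agent.H7.W
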